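import Pool.Graph.R_pool_sql_team_seeded_1acbe0a2.Y498.FQ.Quot

set_option autoImplicit false
open Set Topology Filter Module

namespace Pool.Agent.Helper15.FQ
open Pool.Agent.Y498.FQ

/-- The topological space `Q` is homeomorphic to the orbit space (with the quotient topology) of
some continuous flow on `ℝ^m`. Smooth flows are continuous. -/
def IsFlowQuotient (m : ℕ) (Q : Type) [TopologicalSpace Q] : Prop :=
  ∃ Φ : ℝ → EuclideanSpace ℝ (Fin m) → EuclideanSpace ℝ (Fin m),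
    Continuous (fun p : ℝ × EuclideanSpace ℝ (Fin m) => Φ p.1 p.2) ∧
    (∀ x, Φ 0 x = x) ∧
    (∀ (s t : ℝ) (x : EuclideanSpace ℝ (Fin m)), Φ (s + t) x = Φ s (Φ t x)) ∧
    Nonempty (Quot (fun x y : EuclideanSpace ℝ (Fin m) => ∃ t : ℝ, Φ t x = y) ≃ₜ Q)

/-- the round two-sphere -/
abbrev S2 : Type := Metric.sphere (0 : EuclideanSpace ℝ (Fin 3)) 1

/-- `Q` is a simply connected `n`-manifold (Hausdorff, second countable, locally homeomorphic to
`ℝ^n`, without boundary). -/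
def IsSCManifold (n : ℕ) (Q : Type) [TopologicalSpace Q] : Prop :=
  T2Space Q ∧ SecondCountableTopology Q ∧ SimplyConnectedSpace Q ∧
    Nonempty (ChartedSpace (EuclideanSpace ℝ (Fin n)) Q)

theorem IsSCManifold.prod {k l : ℕ} {X Y : Type} [TopologicalSpace X] [TopologicalSpace Y]
    (hX : IsSCManifold k X) (hY : IsSCManifold l Y) {n : ℕ} (hn : n = k + l) :
    IsSCManifold n (X × Y) := by
  obtain ⟨x1, x2, x3, ⟨x4⟩⟩ := hX
  obtain ⟨y1, y2, y3, ⟨y4⟩⟩ := hY
  refine ⟨inferInstance, inferInstance, simplyConnected_prod X Y, ?_⟩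
  have hfr : finrank ℝ (EuclideanSpace ℝ (Fin k) × EuclideanSpace ℝ (Fin l)) =
      finrank ℝ (EuclideanSpace ℝ (Fin n)) := by
    rw [finrank_prod, finrank_euclideanSpace_fin, finrank_euclideanSpace_fin,
      finrank_euclideanSpace_fin, hn]
  let L : (EuclideanSpace ℝ (Fin k) × EuclideanSpace ℝ (Fin l)) ≃L[ℝ] EuclideanSpace ℝ (Fin n) :=
    ContinuousLinearEquiv.ofFinrankEq hfr
  let e : ModelProd (EuclideanSpace ℝ (Fin k)) (EuclideanSpace ℝ (Fin l)) ≃ₜ
      EuclideanSpace ℝ (Fin n) := L.toHomeomorph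
  let c1 : ChartedSpace (EuclideanSpace ℝ (Fin n))
      (ModelProd (EuclideanSpace ℝ (Fin k)) (EuclideanSpace ℝ (Fin l))) :=
    e.toOpenPartialHomeomorph.singletonChartedSpace rfl
  exact ⟨ChartedSpace.comp (EuclideanSpace ℝ (Fin n))
    (ModelProd (EuclideanSpace ℝ (Fin k)) (EuclideanSpace ℝ (Fin l))) (X × Y)⟩

theorem isSCManifold_sphere {k : ℕ} (hk : 2 ≤ k) :
    IsSCManifold k (Metric.sphere (0 : EuclideanSpace ℝ (Fin (k + 1))) 1) := by
  have : Fact (finrank ℝ (EuclideanSpace ℝ (Fin (k + 1))) = k + 1) := ⟨by simp⟩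
  refine ⟨inferInstance, inferInstance, ?_, ⟨inferInstance⟩⟩
  exact Pool.Agent.Helper206.BoxS.Sph.simplyConnected_sphere (by simp; omega)

theorem isSCManifold_euclidean (k : ℕ) : IsSCManifold k (EuclideanSpace ℝ (Fin k)) := by
  refine ⟨inferInstance, inferInstance, ?_, ⟨inferInstance⟩⟩
  have : ContractibleSpace (EuclideanSpace ℝ (Fin k)) := inferInstance
  infer_instance

theorem isSCManifold_S2 : IsSCManifold 2 S2 := isSCManifold_sphere le_rfl

/-- the two-sphere as the unit sphere of `ℂ × ℝ` -/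
noncomputable def toCR (x : S2) : ℂ × ℝ := (⟨x.1 0, x.1 1⟩, x.1 2)

theorem toCR_cont : Continuous toCR := by
  have h : ∀ j : Fin 3, Continuous (fun x : S2 => x.1 j) := fun j => by fun_prop
  have h1 : Continuous (fun x : S2 => (⟨x.1 0, x.1 1⟩ : ℂ)) := by
    have : (fun x : S2 => (⟨x.1 0, x.1 1⟩ : ℂ)) =
        fun x : S2 => (x.1 0 : ℂ) + (x.1 1 : ℂ) * Complex.I := by
      funext x
      apply Complex.ext <;> simp
    rw [this]
    exact (Complex.continuous_ofReal.comp (h 0)).add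
      ((Complex.continuous_ofReal.comp (h 1)).mul continuous_const)
  exact h1.prodMk (h 2)

theorem norm_sq3 (x : EuclideanSpace ℝ (Fin 3)) : ‖x‖ ^ 2 = x 0 ^ 2 + x 1 ^ 2 + x 2 ^ 2 := by
  rw [EuclideanSpace.norm_sq_eq, Fin.sum_univ_three]
  simp

theorem toCR_rr (x : S2) : rr (toCR x) = 1 := by
  have h1 : ‖x.1‖ = 1 := by simpa using x.2
  have h2 := norm_sq3 x.1
  unfold rr toCR
  rw [Complex.normSq_mk, show x.1 0 * x.1 0 + x.1 1 * x.1 1 + x.1 2 ^ 2 = 1 by
    rw [h1] at h2; linarith, Real.sqrt_one]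

theorem toCR_ne (x : S2) : toCR x ≠ 0 := by
  intro h
  have h1 := toCR_rr x
  rw [h] at h1
  simp [rr] at h1

/-- the inverse of `toCR` on unit vectors -/
noncomputable def ofCR (w : ℂ × ℝ) (hw : rr w = 1) : S2 :=
  ⟨!₂[w.1.re, w.1.im, w.2], by
    have h2 := norm_sq3 (!₂[w.1.re, w.1.im, w.2] : EuclideanSpace ℝ (Fin 3))
    have h3 := rr_sq w
    rw [hw, Complex.normSq_apply] at h3
    have h4 : ‖(!₂[w.1.re, w.1.im, w.2] : EuclideanSpace ℝ (Fin 3))‖ ^ 2 = 1 := by
      rw [h2]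
      simp
      linarith
    have h5 : ‖(!₂[w.1.re, w.1.im, w.2] : EuclideanSpace ℝ (Fin 3))‖ = 1 := by
      have := norm_nonneg (!₂[w.1.re, w.1.im, w.2] : EuclideanSpace ℝ (Fin 3))
      nlinarith
    simpa using h5⟩

theorem toCR_ofCR (w : ℂ × ℝ) (hw : rr w = 1) : toCR (ofCR w hw) = w := by
  unfold toCR ofCR
  rfl

theorem ofCR_cont {X : Type*} [TopologicalSpace X] {g : X → ℂ × ℝ} (hg : Continuous g)
    (h : ∀ x, rr (g x) = 1) : Continuous (fun x => ofCR (g x) (h x)) := by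
  unfold ofCR
  apply Continuous.subtype_mk
  have h1 : Continuous (fun x => (g x).1.re) := Complex.continuous_re.comp (continuous_fst.comp hg)
  have h2 : Continuous (fun x => (g x).1.im) := Complex.continuous_im.comp (continuous_fst.comp hg)
  have h3 : Continuous (fun x => (g x).2) := continuous_snd.comp hg
  apply (PiLp.continuous_toLp 2 (fun _ : Fin 3 => ℝ)).comp
  rw [continuous_pi_iff]
  intro j
  fin_cases j
  · exact h1
  · exact h2
  · exact h3

end Pool.Agent.Helper15.FQ
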