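import Pool.Agent.Helper15.FQ.Cup4

set_option autoImplicit false
set_option linter.unusedSectionVars false
open Set Topology

namespace Pool.Agent.Helper15.FQ4

variable {N : ℕ} [NeZero N]

/-- the part of a cochain with label `s` -/
def cut (lab : G4 N → ℤ × ℤ) (s : ℤ × ℤ) (F : Fin 4 → Fin 4 → G4 N → ℝ) :
    Fin 4 → Fin 4 → G4 N → ℝ := fun i j x => if lab x = s then F i j x else 0

theorem cut_cl {lab : G4 N → ℤ × ℤ} {F : Fin 4 → Fin 4 → G4 N → ℝ} (hF : Cl F)
    (h1 : ∀ x k, (∀ i j, F i j (x + E4 N k) = 0) ∨ lab (x + E4 N k) = lab x) (s : ℤ × ℤ) :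
    Cl (cut lab s F) := by
  constructor
  · intro i j x
    unfold cut
    split_ifs
    · exact hF.anti _ _ _
    · simp
  · intro i j k x
    by_cases hx : lab x = s
    · have e : ∀ l a b, cut lab s F a b (x + E4 N l) = F a b (x + E4 N l) := by
        intro l a b
        unfold cut
        rcases h1 x l with h | h
        · rw [h]; simp
        · rw [h, if_pos hx]
      have e0 : ∀ a b, cut lab s F a b x = F a b x := by
        intro a b
        unfold cut
        rw [if_pos hx]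
      rw [e, e, e, e0, e0, e0]
      exact hF.closed _ _ _ _
    · have e : ∀ l a b, cut lab s F a b (x + E4 N l) = 0 := by
        intro l a b
        unfold cut
        rcases h1 x l with h | h
        · rw [h]; simp
        · rw [h, if_neg hx]
      have e0 : ∀ a b, cut lab s F a b x = 0 := by
        intro a b
        unfold cut
        rw [if_neg hx]
      rw [e, e, e, e0, e0, e0]
      ring

theorem PP_int {F F' : Fin 4 → Fin 4 → G4 N → ℝ}
    (hF : ∀ i j x, i < j → ∃ n : ℤ, F i j x = n)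
    (hF' : ∀ i j x, i < j → ∃ n : ℤ, F' i j x = n) : ∃ n : ℤ, PP F F' = n := by
  have h : ∀ x, ∃ n : ℤ, cup F F' x = n := by
    intro x
    obtain ⟨a1, b1⟩ := hF 0 1 x (by decide)
    obtain ⟨a2, b2⟩ := hF 0 2 x (by decide)
    obtain ⟨a3, b3⟩ := hF 0 3 x (by decide)
    obtain ⟨a4, b4⟩ := hF 1 2 x (by decide)
    obtain ⟨a5, b5⟩ := hF 1 3 x (by decide)
    obtain ⟨a6, b6⟩ := hF 2 3 x (by decide)
    obtain ⟨c1, d1⟩ := hF' 2 3 (x + E4 N 0 + E4 N 1) (by decide)
    obtain ⟨c2, d2⟩ := hF' 1 3 (x + E4 N 0 + E4 N 2) (by decide)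
    obtain ⟨c3, d3⟩ := hF' 1 2 (x + E4 N 0 + E4 N 3) (by decide)
    obtain ⟨c4, d4⟩ := hF' 0 3 (x + E4 N 1 + E4 N 2) (by decide)
    obtain ⟨c5, d5⟩ := hF' 0 2 (x + E4 N 1 + E4 N 3) (by decide)
    obtain ⟨c6, d6⟩ := hF' 0 1 (x + E4 N 2 + E4 N 3) (by decide)
    refine ⟨a1 * c1 - a2 * c2 + a3 * c3 + a4 * c4 - a5 * c5 + a6 * c6, ?_⟩
    unfold cup
    rw [b1, b2, b3, b4, b5, b6, d1, d2, d3, d4, d5, d6]
    push_cast
    ring
  choose f hf using h
  refine ⟨∑ x, f x, ?_⟩
  unfold PP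
  push_cast
  exact Finset.sum_congr rfl (fun x _ => hf x)

theorem PP_lin (F A B : Fin 4 → Fin 4 → G4 N → ℝ) (p q : ℝ) :
    PP F (fun i j x => p * B i j x - q * A i j x) = p * PP F B - q * PP F A := by
  unfold PP
  rw [Finset.mul_sum, Finset.mul_sum, ← Finset.sum_sub_distrib]
  apply Finset.sum_congr rfl
  intro x _
  unfold cup
  ring

/-- **The parity obstruction.** -/
theorem combi4 {Fa Fb : Fin 4 → Fin 4 → G4 N → ℝ} (ha : Cl Fa) (hb : Cl Fb)
    (hP : PP Fa Fb = 1)
    (hia : ∀ i j x, i < j → ∃ n : ℤ, Fa i j x = n)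
    (hib : ∀ i j x, i < j → ∃ n : ℤ, Fb i j x = n)
    (lab : G4 N → ℤ × ℤ) (γ : ℤ × ℤ → Fin 4 → G4 N → ℝ)
    (h0 : ∀ x, ((∀ i j, Fa i j x = 0) ∧ (∀ i j, Fb i j x = 0)) ∨ lab x ≠ 0)
    (h1 : ∀ x k, ((∀ i j, Fa i j (x + E4 N k) = 0) ∧ (∀ i j, Fb i j (x + E4 N k) = 0)) ∨
      (lab (x + E4 N k) = lab x))
    (h2 : ∀ x k l, ((∀ i j, Fa i j (x + E4 N k + E4 N l) = 0) ∧
      (∀ i j, Fb i j (x + E4 N k + E4 N l) = 0)) ∨ (lab (x + E4 N k + E4 N l) = lab x))
    (hγ : ∀ x, lab x ≠ 0 → IsCoprime (lab x).1 (lab x).2 ∧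
      ∀ k l i j, i < j → ((lab x).1 : ℝ) * Fb i j (x + E4 N k + E4 N l) -
        ((lab x).2 : ℝ) * Fa i j (x + E4 N k + E4 N l) =
        dd (γ (lab x)) i j (x + E4 N k + E4 N l)) : False := by
  classical
  have ca : ∀ s, Cl (cut lab s Fa) := fun s => cut_cl ha (fun x k => (h1 x k).imp_left (·.1)) s
  have cb : ∀ s, Cl (cut lab s Fb) := fun s => cut_cl hb (fun x k => (h1 x k).imp_left (·.2)) s
  have ia : ∀ s i j x, i < j → ∃ n : ℤ, cut lab s Fa i j x = n := by
    intro s i j x hij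
    unfold cut
    split_ifs
    · exact hia i j x hij
    · exact ⟨0, by simp⟩
  have ib : ∀ s i j x, i < j → ∃ n : ℤ, cut lab s Fb i j x = n := by
    intro s i j x hij
    unfold cut
    split_ifs
    · exact hib i j x hij
    · exact ⟨0, by simp⟩
  -- values at neighbours
  have va : ∀ x k l i j, cut lab (lab x) Fa i j (x + E4 N k + E4 N l) =
      Fa i j (x + E4 N k + E4 N l) := by
    intro x k l i j
    unfold cut
    rcases h2 x k l with h | h
    · rw [h.1]; simp
    · rw [h, if_pos rfl]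
  have vb : ∀ x k l i j, cut lab (lab x) Fb i j (x + E4 N k + E4 N l) =
      Fb i j (x + E4 N k + E4 N l) := by
    intro x k l i j
    unfold cut
    rcases h2 x k l with h | h
    · rw [h.2]; simp
    · rw [h, if_pos rfl]
  have hcut0 : ∀ (F F' : Fin 4 → Fin 4 → G4 N → ℝ) s x, lab x ≠ s →
      cup (cut lab s F) F' x = 0 := by
    intro F F' s x hx
    unfold cup cut
    simp only [if_neg hx]
    ring
  have hsum : PP Fa Fb = ∑ s ∈ Finset.univ.image lab, PP (cut lab s Fa) (cut lab s Fb) := by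
    unfold PP
    rw [Finset.sum_comm]
    apply Finset.sum_congr rfl
    intro x _
    rw [Finset.sum_eq_single (lab x)]
    · unfold cup
      simp only [vb]
      simp only [cut, if_true]
    · intro s _ hs
      exact hcut0 _ _ _ _ (Ne.symm hs)
    · intro h
      exact absurd (Finset.mem_image_of_mem _ (Finset.mem_univ x)) h
  have heven : ∀ s ∈ Finset.univ.image lab, ∃ n : ℤ, PP (cut lab s Fa) (cut lab s Fb) = 2 * n := by
    intro s hs
    obtain ⟨x0, -, hx0⟩ := Finset.mem_image.1 hs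
    by_cases hs0 : s = 0
    · refine ⟨0, ?_⟩
      subst hs0
      unfold PP
      rw [Finset.sum_eq_zero]
      · simp
      intro x _
      by_cases hx : lab x = 0
      · have h := (h0 x).resolve_right (fun h => h hx)
        unfold cup cut
        simp only [h.1, ite_self]
        ring
      · exact hcut0 _ _ _ _ hx
    · have hx0' : lab x0 ≠ 0 := by rw [hx0]; exact hs0
      obtain ⟨hcop, -⟩ := hγ x0 hx0'
      rw [hx0] at hcop
      have rel : ∀ F : Fin 4 → Fin 4 → G4 N → ℝ, PP (cut lab s F)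
          (fun i j x => (s.1 : ℝ) * cut lab s Fb i j x - (s.2 : ℝ) * cut lab s Fa i j x) =
          PP (cut lab s F) (dd (γ s)) := by
        intro F
        unfold PP
        apply Finset.sum_congr rfl
        intro x _
        by_cases hx : lab x = s
        · obtain ⟨-, hr⟩ := hγ x (by rw [hx]; exact hs0)
          have hr' : ∀ k l i j, i < j →
              (s.1 : ℝ) * cut lab s Fb i j (x + E4 N k + E4 N l) -
              (s.2 : ℝ) * cut lab s Fa i j (x + E4 N k + E4 N l) =
              dd (γ s) i j (x + E4 N k + E4 N l) := by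
            intro k l i j hij
            have h3 := hr k l i j hij
            rw [← va, ← vb, hx] at h3
            exact h3
          unfold cup
          simp only
          rw [hr' _ _ 2 3 (by decide), hr' _ _ 1 3 (by decide), hr' _ _ 1 2 (by decide),
            hr' _ _ 0 3 (by decide), hr' _ _ 0 2 (by decide), hr' _ _ 0 1 (by decide)]
        · rw [hcut0 _ _ _ _ hx, hcut0 _ _ _ _ hx]
      have r1 := rel Fa
      rw [PP_lin, PP_exact (ca s)] at r1
      have r2 := rel Fb
      rw [PP_lin, PP_exact (cb s), PP_symm (cb s) (ca s)] at r2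
      obtain ⟨t, ht⟩ := PP_int (ia s) (ib s)
      obtain ⟨m, hm⟩ := PP_even (ca s) (ia s)
      obtain ⟨n, hn⟩ := PP_even (cb s) (ib s)
      rw [ht, hm] at r1
      rw [hn, ht] at r2
      have r1' : s.1 * t = 2 * (s.2 * m) := by
        have : (s.1 : ℝ) * t = 2 * (s.2 * m) := by linarith
        exact_mod_cast this
      have r2' : s.2 * t = 2 * (s.1 * n) := by
        have : (s.2 : ℝ) * t = 2 * (s.1 * n) := by linarith
        exact_mod_cast this
      obtain ⟨u, v, huv⟩ := hcop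
      refine ⟨u * (s.2 * m) + v * (s.1 * n), ?_⟩
      rw [ht]
      have : t = 2 * (u * (s.2 * m) + v * (s.1 * n)) := by
        calc t = (u * s.1 + v * s.2) * t := by rw [huv, one_mul]
          _ = u * (s.1 * t) + v * (s.2 * t) := by ring
          _ = _ := by rw [r1', r2']; ring
      exact_mod_cast this
  choose! n hn using heven
  rw [Finset.sum_congr rfl hn, ← Finset.mul_sum, hP] at hsum
  have : (1 : ℤ) = 2 * ∑ s ∈ Finset.univ.image lab, n s := by exact_mod_cast hsum
  omega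

/-- the two-cochain of a real one-cochain and a constant on one coordinate plane -/
def FF (p q : Fin 4) (κ : ℝ) (α : Fin 4 → G4 N → ℝ) (i j : Fin 4) (x : G4 N) : ℝ :=
  κ * ((if i = p ∧ j = q then 1 else 0) - (if j = p ∧ i = q then 1 else 0)) - dd α i j x

theorem FF_cl (p q : Fin 4) (κ : ℝ) (α : Fin 4 → G4 N → ℝ) : Cl (FF p q κ α) := by
  constructor
  · intro i j x
    unfold FF dd
    ring
  · intro i j k x
    unfold FF dd
    rw [add_right_comm x (E4 N j) (E4 N i), add_right_comm x (E4 N k) (E4 N i),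
      add_right_comm x (E4 N k) (E4 N j)]
    ring

theorem FF_PP (α β : Fin 4 → G4 N → ℝ) :
    PP (FF 0 1 (1 / (N : ℝ) ^ 2) α) (FF 2 3 (1 / (N : ℝ) ^ 2) β) = 1 := by
  have hN := (N_pos (N := N)).ne'
  have h1 : ∀ j k x, FF 0 1 (1 / (N : ℝ) ^ 2) α j k x =
      (fun i j : Fin 4 => (1 / (N : ℝ) ^ 2) * ((if i = 0 ∧ j = 1 then 1 else 0) -
        (if j = 0 ∧ i = 1 then 1 else 0))) j k + dd (fun i x => - α i x) j k x := by
    intro j k x
    unfold FF dd
    ring
  have h2 : ∀ j k x, FF 2 3 (1 / (N : ℝ) ^ 2) β j k x =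
      (fun i j : Fin 4 => (1 / (N : ℝ) ^ 2) * ((if i = 2 ∧ j = 3 then 1 else 0) -
        (if j = 2 ∧ i = 3 then 1 else 0))) j k + dd (fun i x => - β i x) j k x := by
    intro j k x
    unfold FF dd
    ring
  rw [PP_eq h1 h2]
  simp
  field_simp

end Pool.Agent.Helper15.FQ4
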