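import Pool.Graph.R_seed8.H672R3.FQ.Stokes

set_option autoImplicit false
open Set Topology

namespace Pool.Agent.Helper15.FQ4

/-- the discrete four-torus -/
abbrev G4 (N : ℕ) := Fin 4 → ZMod N

/-- the unit vector -/
def E4 (N : ℕ) (j : Fin 4) : G4 N := Pi.single j 1

set_option linter.unusedSectionVars false

variable {N : ℕ} [NeZero N]

/-- coboundary -/
def dd (a : Fin 4 → G4 N → ℝ) (i j : Fin 4) (x : G4 N) : ℝ :=
  (a j (x + E4 N i) - a j x) - (a i (x + E4 N j) - a i x)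

/-- cup product at a point -/
def cup (F F' : Fin 4 → Fin 4 → G4 N → ℝ) (x : G4 N) : ℝ :=
  F 0 1 x * F' 2 3 (x + E4 N 0 + E4 N 1) - F 0 2 x * F' 1 3 (x + E4 N 0 + E4 N 2) +
    F 0 3 x * F' 1 2 (x + E4 N 0 + E4 N 3) + F 1 2 x * F' 0 3 (x + E4 N 1 + E4 N 2) -
    F 1 3 x * F' 0 2 (x + E4 N 1 + E4 N 3) + F 2 3 x * F' 0 1 (x + E4 N 2 + E4 N 3)

/-- cup product -/
def PP (F F' : Fin 4 → Fin 4 → G4 N → ℝ) : ℝ := ∑ x, cup F F' x

/-- closed and antisymmetric two-cochains -/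
structure Cl (F : Fin 4 → Fin 4 → G4 N → ℝ) : Prop where
  anti : ∀ i j x, F j i x = - F i j x
  closed : ∀ i j k x, (F j k (x + E4 N i) - F j k x) - (F i k (x + E4 N j) - F i k x) +
    (F i j (x + E4 N k) - F i j x) = 0

theorem E4_order (i : Fin 4) : N • E4 N i = 0 := by
  funext j
  simp [E4, Pi.single_apply]

theorem const_of_inv {f : G4 N → ℝ} (h : ∀ x i, f (x + E4 N i) = f x) (x : G4 N) : f x = f 0 := by
  have h1 : ∀ (n : ℕ) (i : Fin 4) (x : G4 N), f (x + n • E4 N i) = f x := by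
    intro n i
    induction n with
    | zero => intro x; simp
    | succ n ih =>
      intro x
      rw [succ_nsmul, ← add_assoc, h, ih]
  have hx : x = 0 + (x 0).val • E4 N 0 + (x 1).val • E4 N 1 + (x 2).val • E4 N 2 +
      (x 3).val • E4 N 3 := by
    funext j
    have h2 : ∀ k : Fin 4, (x k).val • (1 : ZMod N) = x k := by
      intro k
      rw [nsmul_eq_mul, mul_one, ZMod.natCast_zmod_val]
    have h3 : ∀ k : Fin 4, ((x k).val • E4 N k) j = if j = k then x k else 0 := by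
      intro k
      rw [Pi.smul_apply, E4, Pi.single_apply, smul_ite, h2, smul_zero]
    rw [Pi.add_apply, Pi.add_apply, Pi.add_apply, Pi.add_apply, h3, h3, h3, h3, Pi.zero_apply]
    fin_cases j <;> simp
  conv_lhs => rw [hx]
  rw [h1, h1, h1, h1]

/-- average in direction `i` -/
noncomputable def av (i : Fin 4) (f : G4 N → ℝ) (x : G4 N) : ℝ :=
  (∑ k ∈ Finset.range N, f (x + k • E4 N i)) / N

/-- homotopy in direction `i` -/
noncomputable def SS (i : Fin 4) (f : G4 N → ℝ) (x : G4 N) : ℝ :=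
  (∑ k ∈ Finset.range N, (k : ℝ) * f (x + k • E4 N i)) / N

theorem N_pos : (0 : ℝ) < N := by exact_mod_cast Nat.pos_of_ne_zero (NeZero.ne N)

theorem SS_diff (i : Fin 4) (f : G4 N → ℝ) (x : G4 N) :
    SS i f (x + E4 N i) - SS i f x = f x - av i f x := by
  have hN := (N_pos (N := N)).ne'
  unfold SS av
  have e1 : ∀ k : ℕ, x + E4 N i + k • E4 N i = x + (k + 1) • E4 N i := by
    intro k
    rw [add_assoc, succ_nsmul, add_comm (E4 N i)]
  simp only [e1]
  have h1 : ∑ k ∈ Finset.range N, ((((k + 1 : ℕ) : ℝ) * f (x + (k + 1) • E4 N i)) -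
      (k : ℝ) * f (x + k • E4 N i)) = (N : ℝ) * f (x + N • E4 N i) - ((0 : ℕ) : ℝ) * f (x + 0 • E4 N i) :=
    Finset.sum_range_sub (fun k : ℕ => (k : ℝ) * f (x + k • E4 N i)) N
  have h2 : ∑ k ∈ Finset.range N, (f (x + (k + 1) • E4 N i) - f (x + k • E4 N i)) =
      f (x + N • E4 N i) - f (x + 0 • E4 N i) :=
    Finset.sum_range_sub (fun k : ℕ => f (x + k • E4 N i)) N
  rw [E4_order, zero_smul, add_zero] at h1 h2
  rw [Finset.sum_sub_distrib] at h1 h2
  have h3 : ∑ k ∈ Finset.range N, ((((k + 1 : ℕ) : ℝ) * f (x + (k + 1) • E4 N i))) =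
      ∑ k ∈ Finset.range N, ((k : ℝ) * f (x + (k + 1) • E4 N i)) +
      ∑ k ∈ Finset.range N, f (x + (k + 1) • E4 N i) := by
    rw [← Finset.sum_add_distrib]
    apply Finset.sum_congr rfl
    intro k _
    push_cast
    ring
  rw [h3] at h1
  push_cast at h1
  field_simp
  linarith

theorem av_inv (i : Fin 4) (f : G4 N → ℝ) (x : G4 N) : av i f (x + E4 N i) = av i f x := by
  unfold av
  have e1 : ∀ k : ℕ, x + E4 N i + k • E4 N i = x + (k + 1) • E4 N i := by
    intro k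
    rw [add_assoc, succ_nsmul, add_comm (E4 N i)]
  simp only [e1]
  have h2 : ∑ k ∈ Finset.range N, (f (x + (k + 1) • E4 N i) - f (x + k • E4 N i)) =
      f (x + N • E4 N i) - f (x + 0 • E4 N i) :=
    Finset.sum_range_sub (fun k : ℕ => f (x + k • E4 N i)) N
  rw [E4_order, zero_smul, sub_self, Finset.sum_sub_distrib] at h2
  rw [sub_eq_zero.1 h2]

theorem av_inv' (i m : Fin 4) (f : G4 N → ℝ) (h : ∀ x, f (x + E4 N m) = f x) (x : G4 N) :
    av i f (x + E4 N m) = av i f x := by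
  unfold av
  congr 1
  apply Finset.sum_congr rfl
  intro k _
  rw [add_right_comm, h]

theorem step {F : Fin 4 → Fin 4 → G4 N → ℝ} (hF : Cl F) (i : Fin 4) :
    ∃ (F' : Fin 4 → Fin 4 → G4 N → ℝ) (η : Fin 4 → G4 N → ℝ), Cl F' ∧
      (∀ j k x, F j k x = F' j k x + dd η j k x) ∧ (∀ j k x, F' j k (x + E4 N i) = F' j k x) ∧
      (∀ m, (∀ j k x, F j k (x + E4 N m) = F j k x) → ∀ j k x, F' j k (x + E4 N m) = F' j k x) := by
  refine ⟨fun j k => av i (F j k), fun k => SS i (F i k), ⟨?_, ?_⟩, ?_, ?_, ?_⟩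
  · intro j k x
    unfold av
    rw [← neg_div, ← Finset.sum_neg_distrib]
    congr 1
    apply Finset.sum_congr rfl
    intro l _
    exact hF.anti _ _ _
  · intro a b c x
    unfold av
    rw [← sub_div, ← sub_div, ← sub_div, ← sub_div, ← add_div, ← Finset.sum_sub_distrib,
      ← Finset.sum_sub_distrib, ← Finset.sum_sub_distrib, ← Finset.sum_sub_distrib,
      ← Finset.sum_add_distrib]
    rw [Finset.sum_eq_zero, zero_div]
    intro l _
    have := hF.closed a b c (x + l • E4 N i)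
    rw [add_right_comm x (E4 N a), add_right_comm x (E4 N b), add_right_comm x (E4 N c)]
    exact this
  · intro j k x
    have h1 := SS_diff i (F j k) x
    have h2 : dd (fun k => SS i (F i k)) j k x = SS i (F j k) (x + E4 N i) - SS i (F j k) x := by
      unfold dd SS
      rw [← sub_div, ← sub_div, ← sub_div, ← sub_div, ← Finset.sum_sub_distrib,
        ← Finset.sum_sub_distrib, ← Finset.sum_sub_distrib, ← Finset.sum_sub_distrib]
      congr 1
      apply Finset.sum_congr rfl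
      intro l _
      have := hF.closed i j k (x + l • E4 N i)
      rw [add_right_comm x (E4 N j), add_right_comm x (E4 N k), add_right_comm x (E4 N i)]
      linear_combination (-(l : ℝ)) * this
    simp only
    rw [h2, h1]
    ring
  · intro j k x
    exact av_inv i _ x
  · intro m hm j k x
    exact av_inv' i m _ (hm j k) x

theorem dd_add (a b : Fin 4 → G4 N → ℝ) (i j : Fin 4) (x : G4 N) :
    dd (fun i x => a i x + b i x) i j x = dd a i j x + dd b i j x := by
  unfold dd; ring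

theorem decomp {F : Fin 4 → Fin 4 → G4 N → ℝ} (hF : Cl F) :
    ∃ (c : Fin 4 → Fin 4 → ℝ) (η : Fin 4 → G4 N → ℝ), ∀ j k x, F j k x = c j k + dd η j k x := by
  obtain ⟨F0, η0, c0, d0, i0, j0⟩ := step hF 0
  obtain ⟨F1, η1, c1, d1, i1, j1⟩ := step c0 1
  obtain ⟨F2, η2, c2, d2, i2, j2⟩ := step c1 2
  obtain ⟨F3, η3, c3, d3, i3, j3⟩ := step c2 3
  refine ⟨fun j k => F3 j k 0, fun i x => ((η0 i x + η1 i x) + η2 i x) + η3 i x, ?_⟩
  intro j k x
  have hinv : ∀ x i, F3 j k (x + E4 N i) = F3 j k x := by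
    intro x i
    fin_cases i
    · exact j3 0 (j2 0 (j1 0 i0)) j k x
    · exact j3 1 (j2 1 i1) j k x
    · exact j3 2 i2 j k x
    · exact i3 j k x
  have hc := const_of_inv hinv x
  rw [dd_add, dd_add, dd_add, d0, d1, d2, d3, hc]
  ring

theorem sum_shift (f : G4 N → ℝ) (v : G4 N) : ∑ x, f (x + v) = ∑ x, f x :=
  Equiv.sum_comp (Equiv.addRight v) f

theorem sum_dd (a : Fin 4 → G4 N → ℝ) (i j : Fin 4) : ∑ x : G4 N, dd a i j x = 0 := by
  unfold dd
  simp only [Finset.sum_sub_distrib]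
  rw [sum_shift (a j), sum_shift (a i)]
  ring

theorem sum_dd' (a : Fin 4 → G4 N → ℝ) (i j k l : Fin 4) :
    ∑ x : G4 N, dd a i j (x + E4 N k + E4 N l) = 0 := by
  rw [sum_shift (fun x => dd a i j (x + E4 N l)), sum_shift (fun x => dd a i j x), sum_dd]

theorem stokes0 (a b : Fin 4 → G4 N → ℝ) : PP (dd a) (dd b) = 0 := by
  have h := Pool.Agent.H672R3.FQ.taskStokes (G4 N) (E4 N) a b 0
  simp only [ite_self, zero_sub, neg_mul_neg] at h
  rw [show ((0 : ℝ) ^ 2) = 0 by norm_num, mul_zero] at h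
  rw [← h]
  unfold PP cup dd
  rfl

theorem PP_decomp (c c' : Fin 4 → Fin 4 → ℝ) (η η' : Fin 4 → G4 N → ℝ) :
    PP (fun i j x => c i j + dd η i j x) (fun i j x => c' i j + dd η' i j x) =
      (N : ℝ) ^ 4 * (c 0 1 * c' 2 3 - c 0 2 * c' 1 3 + c 0 3 * c' 1 2 + c 1 2 * c' 0 3 -
        c 1 3 * c' 0 2 + c 2 3 * c' 0 1) := by
  have key : ∀ x : G4 N, cup (fun i j x => c i j + dd η i j x) (fun i j x => c' i j + dd η' i j x) x =
      (c 0 1 * c' 2 3 - c 0 2 * c' 1 3 + c 0 3 * c' 1 2 + c 1 2 * c' 0 3 -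
        c 1 3 * c' 0 2 + c 2 3 * c' 0 1) +
      (c 0 1 * dd η' 2 3 (x + E4 N 0 + E4 N 1) - c 0 2 * dd η' 1 3 (x + E4 N 0 + E4 N 2) +
        c 0 3 * dd η' 1 2 (x + E4 N 0 + E4 N 3) + c 1 2 * dd η' 0 3 (x + E4 N 1 + E4 N 2) -
        c 1 3 * dd η' 0 2 (x + E4 N 1 + E4 N 3) + c 2 3 * dd η' 0 1 (x + E4 N 2 + E4 N 3)) +
      (dd η 0 1 x * c' 2 3 - dd η 0 2 x * c' 1 3 + dd η 0 3 x * c' 1 2 + dd η 1 2 x * c' 0 3 -
        dd η 1 3 x * c' 0 2 + dd η 2 3 x * c' 0 1) + cup (dd η) (dd η') x := by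
    intro x
    unfold cup
    ring
  have hs := stokes0 η η'
  unfold PP at *
  rw [Finset.sum_congr rfl (fun x _ => key x)]
  simp only [Finset.sum_add_distrib, Finset.sum_sub_distrib, ← Finset.mul_sum, ← Finset.sum_mul,
    sum_dd, sum_dd', hs, Finset.sum_const, Finset.card_univ, Fintype.card_fun, ZMod.card,
    Fintype.card_fin, nsmul_eq_mul]
  push_cast
  ring

theorem PP_eq {F F' : Fin 4 → Fin 4 → G4 N → ℝ} {c c' : Fin 4 → Fin 4 → ℝ}
    {η η' : Fin 4 → G4 N → ℝ} (h : ∀ j k x, F j k x = c j k + dd η j k x)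
    (h' : ∀ j k x, F' j k x = c' j k + dd η' j k x) :
    PP F F' = (N : ℝ) ^ 4 * (c 0 1 * c' 2 3 - c 0 2 * c' 1 3 + c 0 3 * c' 1 2 + c 1 2 * c' 0 3 -
        c 1 3 * c' 0 2 + c 2 3 * c' 0 1) := by
  rw [← PP_decomp c c' η η']
  congr 1
  · funext j k x; exact h j k x
  · funext j k x; exact h' j k x

theorem PP_exact {F : Fin 4 → Fin 4 → G4 N → ℝ} (hF : Cl F) (γ : Fin 4 → G4 N → ℝ) :
    PP F (dd γ) = 0 := by
  obtain ⟨c, η, h⟩ := decomp hF
  rw [PP_eq (c' := fun _ _ => 0) (η' := γ) h (fun j k x => by simp)]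
  ring

theorem PP_symm {F F' : Fin 4 → Fin 4 → G4 N → ℝ} (hF : Cl F) (hF' : Cl F') :
    PP F F' = PP F' F := by
  obtain ⟨c, η, h⟩ := decomp hF
  obtain ⟨c', η', h'⟩ := decomp hF'
  rw [PP_eq h h', PP_eq h' h]
  ring

theorem period_int {F : Fin 4 → Fin 4 → G4 N → ℝ} {c : Fin 4 → Fin 4 → ℝ}
    {η : Fin 4 → G4 N → ℝ} (h : ∀ j k x, F j k x = c j k + dd η j k x) (i j : Fin 4)
    (hint : ∀ x, ∃ n : ℤ, F i j x = n) : ∃ n : ℤ, (N : ℝ) ^ 2 * c i j = n := by
  choose f hf using hint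
  refine ⟨∑ u ∈ Finset.range N, ∑ v ∈ Finset.range N, f (u • E4 N i + v • E4 N j), ?_⟩
  have h1 : ∑ u ∈ Finset.range N, ∑ v ∈ Finset.range N, F i j (u • E4 N i + v • E4 N j) =
      (N : ℝ) ^ 2 * c i j + ∑ u ∈ Finset.range N, ∑ v ∈ Finset.range N,
        dd η i j (u • E4 N i + v • E4 N j) := by
    simp only [h i j, Finset.sum_add_distrib, Finset.sum_const, Finset.card_range, nsmul_eq_mul]
    ring
  have h2 : ∑ u ∈ Finset.range N, ∑ v ∈ Finset.range N,
        dd η i j (u • E4 N i + v • E4 N j) = 0 := by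
    unfold dd
    simp only [Finset.sum_sub_distrib (G := ℝ)]
    have t1 : ∑ u ∈ Finset.range N, ∑ v ∈ Finset.range N, η j (u • E4 N i + v • E4 N j + E4 N i) -
        ∑ u ∈ Finset.range N, ∑ v ∈ Finset.range N, η j (u • E4 N i + v • E4 N j) = 0 := by
      rw [Finset.sum_comm, Finset.sum_comm (f := fun u v => η j (u • E4 N i + v • E4 N j)),
        ← Finset.sum_sub_distrib]
      apply Finset.sum_eq_zero
      intro v _
      rw [← Finset.sum_sub_distrib]
      have := Finset.sum_range_sub (fun u : ℕ => η j (u • E4 N i + v • E4 N j)) N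
      rw [E4_order, zero_smul, sub_self] at this
      rw [← this]
      apply Finset.sum_congr rfl
      intro u _
      rw [succ_nsmul, add_right_comm]
    have t2 : ∑ u ∈ Finset.range N, ∑ v ∈ Finset.range N, η i (u • E4 N i + v • E4 N j + E4 N j) -
        ∑ u ∈ Finset.range N, ∑ v ∈ Finset.range N, η i (u • E4 N i + v • E4 N j) = 0 := by
      rw [← Finset.sum_sub_distrib]
      apply Finset.sum_eq_zero
      intro u _
      rw [← Finset.sum_sub_distrib]
      have := Finset.sum_range_sub (fun v : ℕ => η i (u • E4 N i + v • E4 N j)) N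
      rw [E4_order, zero_smul, sub_self] at this
      rw [← this]
      apply Finset.sum_congr rfl
      intro v _
      rw [succ_nsmul, add_assoc]
    linarith
  rw [h2, add_zero] at h1
  rw [← h1]
  push_cast
  apply Finset.sum_congr rfl
  intro u _
  apply Finset.sum_congr rfl
  intro v _
  exact hf _

theorem PP_even {F : Fin 4 → Fin 4 → G4 N → ℝ} (hF : Cl F)
    (hint : ∀ i j x, i < j → ∃ n : ℤ, F i j x = n) : ∃ n : ℤ, PP F F = 2 * n := by
  obtain ⟨c, η, h⟩ := decomp hF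
  obtain ⟨n01, h01⟩ := period_int h 0 1 (fun x => hint 0 1 x (by decide))
  obtain ⟨n02, h02⟩ := period_int h 0 2 (fun x => hint 0 2 x (by decide))
  obtain ⟨n03, h03⟩ := period_int h 0 3 (fun x => hint 0 3 x (by decide))
  obtain ⟨n12, h12⟩ := period_int h 1 2 (fun x => hint 1 2 x (by decide))
  obtain ⟨n13, h13⟩ := period_int h 1 3 (fun x => hint 1 3 x (by decide))
  obtain ⟨n23, h23⟩ := period_int h 2 3 (fun x => hint 2 3 x (by decide))
  refine ⟨n01 * n23 - n02 * n13 + n03 * n12, ?_⟩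
  rw [PP_eq h h]
  push_cast
  rw [← h01, ← h02, ← h03, ← h12, ← h13, ← h23]
  ring

end Pool.Agent.Helper15.FQ4
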