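import Pool.Graph.R_pool_sql_team_seeded_1acbe0a2.Y498.FQ.Lift

set_option autoImplicit false
open Set Topology Filter
open scoped ComplexConjugate

namespace Pool.Agent.Helper15.FQ
open Pool.Agent.Y498.FQ
open Pool.Agent.H289R3.FQ (T1)

/-- the unit vector in the direction of `w` -/
noncomputable def nrm (w : ℂ × ℝ) : ℂ × ℝ := (((rr w)⁻¹ : ℝ) * w.1, (rr w)⁻¹ * w.2)

theorem rr_smul {c : ℝ} (hc : 0 ≤ c) (w : ℂ × ℝ) : rr ((c : ℂ) * w.1, c * w.2) = c * rr w := by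
  unfold rr
  simp only [Complex.normSq_mul, Complex.normSq_ofReal]
  rw [show c * c * Complex.normSq w.1 + (c * w.2) ^ 2 = c ^ 2 * (Complex.normSq w.1 + w.2 ^ 2) by
    ring, Real.sqrt_mul (sq_nonneg c), Real.sqrt_sq hc]

theorem rr_nrm {w : ℂ × ℝ} (hw : w ≠ 0) : rr (nrm w) = 1 := by
  unfold nrm
  rw [rr_smul (inv_nonneg.2 (rr_nonneg w)), inv_mul_cancel₀ (rr_pos hw).ne']

theorem EL_nrm {w : ℂ × ℝ} (hw : w ≠ 0) {z : ℂ × ℂ} (h : EL w z) : EL (nrm w) z := by
  have h1 := rr_nrm hw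
  have h2 := (rr_pos hw).ne'
  have h2' : ((rr w : ℝ) : ℂ) ≠ 0 := by exact_mod_cast h2
  unfold EL at *
  rw [h1]
  unfold nrm
  obtain ⟨e1, e2⟩ := h
  simp only [map_mul, Complex.conj_ofReal]
  push_cast
  constructor
  · have : ((rr w : ℝ) : ℂ)⁻¹ * (w.2 * z.1 + w.1 * z.2) = ((rr w : ℝ) : ℂ)⁻¹ * (rr w * z.1) := by
      rw [e1]
    rw [← mul_assoc, inv_mul_cancel₀ h2'] at this
    linear_combination this
  · have : ((rr w : ℝ) : ℂ)⁻¹ * (conj w.1 * z.1 - w.2 * z.2) =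
        ((rr w : ℝ) : ℂ)⁻¹ * (rr w * z.2) := by
      rw [e2]
    rw [← mul_assoc, inv_mul_cancel₀ h2'] at this
    linear_combination this

theorem nrm_cont {X : Type*} [TopologicalSpace X] {g : X → ℂ × ℝ} (hg : Continuous g)
    (h0 : ∀ x, g x ≠ 0) : Continuous (fun x => nrm (g x)) := by
  unfold nrm
  have h1 : Continuous (fun x => (rr (g x))⁻¹) :=
    (rr_cont.comp hg).inv₀ (fun x => (rr_pos (h0 x)).ne')
  exact ((Complex.continuous_ofReal.comp h1).mul (continuous_fst.comp hg)).prodMk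
    (h1.mul (continuous_snd.comp hg))

/-- the standard map of the two-torus to the unit sphere of `ℂ × ℝ` -/
noncomputable def e2n (u v : ℝ) : ℂ × ℝ := nrm (hopf (ZZ (u, v)))

theorem e2n_u (u v : ℝ) : e2n (u + 1) v = e2n u v := by unfold e2n; rw [ZZ_u]

theorem e2n_v (u v : ℝ) : e2n u (v + 1) = e2n u v := by unfold e2n; rw [ZZ_v, hopf_ex]

theorem e2n_rr (u v : ℝ) : rr (e2n u v) = 1 := rr_nrm (hopf_ne (ZZ_ne _))

theorem e2n_cont : Continuous (fun p : ℝ × ℝ => e2n p.1 p.2) :=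
  nrm_cont (hopf_cont.comp ZZ_cont) (fun _ => hopf_ne (ZZ_ne _))

theorem e2n_int (u v : ℝ) (a b : ℤ) : e2n (u + a) (v + b) = e2n u v := by
  have h1 : ∀ (v : ℝ), Function.Periodic (fun u => e2n u v) 1 := fun v u => e2n_u u v
  have h2 : ∀ (u : ℝ), Function.Periodic (fun v => e2n u v) 1 := fun u v => e2n_v u v
  have e1 := (h1 (v + b)).int_mul a u
  have e2' := (h2 u).int_mul b v
  simp only [mul_one] at e1 e2'
  rw [e1, e2']

variable {V : Type*} [NormedAddCommGroup V] [NormedSpace ℝ V] [FiniteDimensional ℝ V]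

/-- The trivialisation of the pulled back circle bundle. -/
theorem exists_theta_n {p : V → ℂ × ℝ} (hp : Continuous p) (hne : ∀ x, p x ≠ 0) (R : ℝ) :
    ∃ Θ : V → ℝ → ℝ → T1,
      ContinuousOn (fun x : V × ℝ × ℝ => Θ x.1 x.2.1 x.2.2)
        {x | ‖x.1‖ < R ∧ p x.1 = e2n x.2.1 x.2.2} ∧
      ∀ (q : V) (u v : ℝ), ‖q‖ < R → p q = e2n u v →
        Θ q (u + 1) v = Θ q u v ∧ Θ q u (v + 1) = Θ q u v + (u : T1) := by
  obtain ⟨z, hz, hzE⟩ := exists_spinor hp hne R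
  let I : V → ℝ × ℝ → ℂ := fun q t => conj (z q).1 * (ZZ t).1 + conj (z q).2 * (ZZ t).2
  have hI : ∀ q t, ‖q‖ < R → p q = e2n t.1 t.2 → I q t ≠ 0 := by
    intro q t hq hqt
    obtain ⟨h1, h2⟩ := hzE q hq.le
    refine inner_ne (hne q) h1 (ZZ_ne t) h2 ?_
    rw [hqt]
    exact EL_nrm (hopf_ne (ZZ_ne _)) (EL_hopf _)
  have hIc : Continuous (fun x : V × ℝ × ℝ => I x.1 x.2) := by
    have h1 : Continuous (fun x : V × ℝ × ℝ => z x.1) := hz.comp continuous_fst
    have h2 : Continuous (fun x : V × ℝ × ℝ => ZZ x.2) := ZZ_cont.comp continuous_snd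
    exact ((Complex.continuous_conj.comp (continuous_fst.comp h1)).mul
      (continuous_fst.comp h2)).add ((Complex.continuous_conj.comp (continuous_snd.comp h1)).mul
      (continuous_snd.comp h2))
  refine ⟨fun q u v => ang (I q (u, v)), ?_, ?_⟩
  · intro x hx
    have h1 : ContinuousAt (fun x : V × ℝ × ℝ => I x.1 x.2) x := hIc.continuousAt
    have h2 : ContinuousAt ang (I x.1 x.2) := ang_cont (hI x.1 x.2 hx.1 hx.2)
    exact (ContinuousAt.comp (f := fun x : V × ℝ × ℝ => I x.1 x.2) h2 h1).continuousWithinAt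
  · intro q u v hq hqt
    constructor
    · simp only [I]
      rw [ZZ_u]
    · have e : I q (u, v + 1) = ex u * I q (u, v) := by
        simp only [I]
        rw [ZZ_v]
        ring
      simp only
      rw [e, ang_mul (hI q (u, v) hq hqt)]

end Pool.Agent.Helper15.FQ
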