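import Pool.Graph.R_seed8.H790.FQ.TorusA
import Pool.Agent.Helper15.FQ.Combi4

set_option autoImplicit false
set_option linter.unusedSectionVars false
open Set Topology
open scoped ContDiff

namespace Pool.Agent.Helper15.FQ4
open Pool.Agent.H289R3.FQ (T1)
open Pool.Agent.H790.FQ (norm_coe_le coe_int exists_sm sm sm_coe sm_abs eq_of_coe)

/-- the unit vector of direction `j` in `ℝ⁴` -/
noncomputable def ee (j : Fin 4) : Fin 4 → ℝ := Pi.single j 1

section grid
variable {N : ℕ} [NeZero N]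

noncomputable def pt (x : G4 N) : Fin 4 → ℝ := fun i => ((x i).val : ℝ) / N

noncomputable def wr (j : Fin 4) (x : G4 N) : ℝ := if (x j).val + 1 = N then 1 else 0

theorem wr_cases (j : Fin 4) (x : G4 N) : wr j x = 0 ∨ wr j x = 1 := by
  unfold wr; split_ifs <;> simp

theorem wr_of_ne {i s : Fin 4} (h : s ≠ i) (x : G4 N) : wr s (x + E4 N i) = wr s x := by
  unfold wr E4
  simp [Pi.single_apply, h]

theorem pt_of_ne {i p : Fin 4} (h : p ≠ i) (x : G4 N) : pt (x + E4 N i) p = pt x p := by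
  unfold pt E4
  simp [Pi.single_apply, h]

theorem pt_self (hN : 2 ≤ N) (x : G4 N) (j : Fin 4) :
    pt (x + E4 N j) j = pt x j + 1 / (N : ℝ) - wr j x := by
  have hN0 : (N : ℝ) ≠ 0 := by
    have : (0 : ℝ) < N := by exact_mod_cast (by omega : 0 < N)
    exact this.ne'
  have h1 : ((x + E4 N j) j) = x j + 1 := by simp [E4]
  have hlt : (x j).val < N := ZMod.val_lt _
  have hone : (1 : ZMod N).val = 1 := by
    rw [ZMod.val_one_eq_one_mod, Nat.mod_eq_of_lt (by omega)]
  unfold pt wr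
  rw [h1]
  rw [ZMod.val_add, hone]
  split_ifs with h
  · rw [h, Nat.mod_self]
    have : ((x j).val : ℝ) = N - 1 := by
      have : ((x j).val : ℝ) + 1 = N := by exact_mod_cast h
      linarith
    rw [this]
    field_simp
    simp
  · rw [Nat.mod_eq_of_lt (by omega)]
    push_cast
    field_simp
    ring

theorem pt_add (hN : 2 ≤ N) (x : G4 N) (j : Fin 4) :
    pt (x + E4 N j) + wr j x • ee j = pt x + (1 / (N : ℝ)) • ee j := by
  funext i
  by_cases h : i = j
  · subst h
    simp only [Pi.add_apply, Pi.smul_apply, ee, Pi.single_eq_same, smul_eq_mul, mul_one]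
    have := pt_self hN x i
    linarith
  · simp only [Pi.add_apply, Pi.smul_apply, ee, Pi.single_eq_of_ne h, smul_eq_mul, mul_zero,
      add_zero]
    exact pt_of_ne h x

theorem pt_nonneg (x : G4 N) (i : Fin 4) : 0 ≤ pt x i := by
  unfold pt; positivity

theorem pt_le_one (x : G4 N) (i : Fin 4) : pt x i ≤ 1 := by
  unfold pt
  have hlt : (x i).val < N := ZMod.val_lt _
  have : (0 : ℝ) < N := by exact_mod_cast (by omega : 0 < N)
  rw [div_le_one this]
  exact_mod_cast hlt.le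

/-- connection -/
noncomputable def conn (p s : Fin 4) (m : ℤ) (j : Fin 4) (z : G4 N) : ℝ :=
  m * ((if j = s then wr s z * pt z p else 0) - (if j = p then (1 / (N : ℝ)) * pt z s else 0))

theorem curv (hN : 2 ≤ N) {p s : Fin 4} (hps : p < s) (m : ℤ) {i j : Fin 4} (hij : i < j)
    (z : G4 N) :
    ((conn p s m j (z + E4 N i) - conn p s m j z - (conn p s m i (z + E4 N j) - conn p s m i z) : ℝ)
      : T1) = (((if i = p ∧ j = s then m * (1 / (N : ℝ)) ^ 2 else 0 : ℝ)) : T1) := by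
  have hp : p ≠ s := hps.ne
  have hi : i ≠ j := hij.ne
  by_cases hjs : j = s
  · subst hjs
    by_cases hip : i = p
    · subst hip
      have hw : wr j (z + E4 N i) = wr j z := wr_of_ne hi.symm z
      have hpi := pt_self hN z i
      have hpj := pt_self hN z j
      have e1 : conn i j m j (z + E4 N i) - conn i j m j z -
          (conn i j m i (z + E4 N j) - conn i j m i z) =
          m * (1 / (N : ℝ)) ^ 2 - m * (wr i z * wr j z) := by
        unfold conn
        simp only [if_true, hi, hi.symm, if_false, hw, hpi, hpj]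
        ring
      rw [e1]
      simp only [and_self, if_true]
      rw [AddCircle.coe_sub]
      have : ((m * (wr i z * wr j z) : ℝ) : T1) = 0 := by
        rcases wr_cases i z with h | h <;> rcases wr_cases j z with h' | h' <;> rw [h, h'] <;>
          simp [coe_int]
      rw [this, sub_zero]
    · have hw : wr j (z + E4 N i) = wr j z := wr_of_ne hi.symm z
      have hpi : pt (z + E4 N i) p = pt z p := pt_of_ne (Ne.symm hip) z
      have e1 : conn p j m j (z + E4 N i) - conn p j m j z -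
          (conn p j m i (z + E4 N j) - conn p j m i z) = 0 := by
        unfold conn
        simp only [if_true, hi, hip, hp.symm, if_false, hw, hpi]
        ring
      rw [e1]
      simp [hip]
  · have e1 : conn p s m j (z + E4 N i) - conn p s m j z -
          (conn p s m i (z + E4 N j) - conn p s m i z) = 0 := by
      by_cases hjp : j = p
      · subst hjp
        have h1 : i ≠ s := (hij.trans hps).ne
        have h2 : pt (z + E4 N i) s = pt z s := pt_of_ne (Ne.symm h1) z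
        unfold conn
        simp only [if_true, hi, h1, hp, if_false, h2]
        ring
      · by_cases his : i = s
        · subst his
          have h1 : wr i (z + E4 N j) = wr i z := wr_of_ne hi z
          have h2 : pt (z + E4 N j) p = pt z p := pt_of_ne (Ne.symm hjp) z
          unfold conn
          simp only [if_true, hjs, hjp, hp.symm, if_false, h1, h2]
          ring
        · by_cases hip : i = p
          · subst hip
            have h2 : pt (z + E4 N j) s = pt z s := pt_of_ne (Ne.symm hjs) z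
            unfold conn
            simp only [if_true, hjs, hjp, his, if_false, h2]
            ring
          · unfold conn
            simp only [hjs, hjp, his, hip, if_false]
            ring
    rw [e1]
    have : ¬ (i = p ∧ j = s) := fun h => hjs h.2
    simp [this]

/-- the small real cochain of a circle valued function and a connection -/
noncomputable def bb (τ : G4 N → T1) (A : Fin 4 → G4 N → ℝ) (j : Fin 4) (z : G4 N) : ℝ :=
  sm (τ (z + E4 N j) - τ z + (A j z : T1))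

/-- smallness of an edge -/
def Sm (τ : G4 N → T1) (A : Fin 4 → G4 N → ℝ) (j : Fin 4) (z : G4 N) : Prop :=
  ‖τ (z + E4 N j) - τ z + (A j z : T1)‖ < 1 / 8

theorem flat (τ : G4 N → T1) (A : Fin 4 → G4 N → ℝ) (i j : Fin 4) (z : G4 N) (κ : ℝ)
    (hκ : |κ| < 1 / 2)
    (hA : ((A j (z + E4 N i) - A j z - (A i (z + E4 N j) - A i z) : ℝ) : T1) = (κ : T1))
    (h1 : Sm τ A j (z + E4 N i)) (h2 : Sm τ A j z) (h3 : Sm τ A i (z + E4 N j))
    (h4 : Sm τ A i z) :
    (bb τ A j (z + E4 N i) - bb τ A j z) - (bb τ A i (z + E4 N j) - bb τ A i z) = κ := by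
  unfold Sm at h1 h2 h3 h4
  apply eq_of_coe
  · rw [← hA]
    simp only [AddCircle.coe_sub, bb, sm_coe]
    have : z + E4 N i + E4 N j = z + E4 N j + E4 N i := by abel
    rw [this]
    abel
  · rw [← sm_abs] at h1 h2 h3 h4
    change |bb τ A j (z + E4 N i)| < 1 / 8 at h1
    change |bb τ A j z| < 1 / 8 at h2
    change |bb τ A i (z + E4 N j)| < 1 / 8 at h3
    change |bb τ A i z| < 1 / 8 at h4
    rw [abs_lt] at *
    constructor <;> linarith [h1.1, h1.2, h2.1, h2.2, h3.1, h3.2, h4.1, h4.2, hκ.1, hκ.2]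

end grid


theorem norm_smul_ee (h : ℝ) (j : Fin 4) : ‖h • ee j‖ ≤ |h| := by
  rw [norm_smul, Real.norm_eq_abs]
  have : ‖ee j‖ ≤ 1 := by
    rw [pi_norm_le_iff_of_nonneg zero_le_one]
    intro i
    unfold ee
    by_cases hi : i = j
    · subst hi; simp
    · simp [Pi.single_eq_of_ne hi]
  nlinarith [abs_nonneg h]

theorem local_good {B : Set (Fin 4 → ℝ)} (hB : IsOpen B) {g : (Fin 4 → ℝ) → T1}
    (hg : ContinuousOn g B) {y₀ : Fin 4 → ℝ} (hy₀ : y₀ ∈ B) :
    ∃ η > 0, ∀ (h : ℝ) (y : Fin 4 → ℝ), |h| < η → dist y y₀ < η →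
      Metric.closedBall y (5 * |h|) ⊆ B ∧ ∀ j, ‖g (y + h • ee j) - g y‖ < 1 / 16 := by
  obtain ⟨ε, hε, hεB⟩ := Metric.isOpen_iff.1 hB y₀ hy₀
  have hc : ContinuousAt g y₀ := hg.continuousAt (hB.mem_nhds hy₀)
  obtain ⟨ε', hε', hg'⟩ := Metric.continuousAt_iff.1 hc (1 / 32) (by norm_num)
  refine ⟨min ε ε' / 10, by positivity, fun h y hh hy => ⟨?_, ?_⟩⟩
  · intro z hz
    apply hεB
    rw [Metric.mem_closedBall] at hz
    rw [Metric.mem_ball]
    have := dist_triangle z y y₀
    have h2 := min_le_left ε ε'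
    have h3 := abs_nonneg h
    linarith
  · intro j
    have h2 := min_le_right ε ε'
    have h3 := abs_nonneg h
    have h1 : dist (y + h • ee j) y₀ < ε' := by
      have h4 : dist (y + h • ee j) y ≤ |h| := by
        rw [dist_eq_norm]; simpa using norm_smul_ee h j
      have := dist_triangle (y + h • ee j) y y₀
      linarith
    have h5 := hg' h1
    have h6 : dist (g y) (g y₀) < 1 / 32 := hg' (by linarith)
    rw [← dist_eq_norm]
    have := dist_triangle_right (g (y + h • ee j)) (g y) (g y₀)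
    linarith

/-- good mesh at a point -/
def Good (B : Set (Fin 4 → ℝ)) (g : (Fin 4 → ℝ) → T1) (r : (Fin 4 → ℝ) → ℤ × ℤ)
    (h : ℝ) (y : Fin 4 → ℝ) : Prop :=
  Metric.closedBall y (5 * |h|) ⊆ {z | z ∈ B ∧ r z = r y} ∧
    (∀ j, ‖g (y + h • ee j) - g y‖ < 1 / 16) ∧
    |h| * (|((r y).1 : ℝ)| + |((r y).2 : ℝ)|) < 1 / 16

theorem eventually_good {B : Set (Fin 4 → ℝ)} {g : (Fin 4 → ℝ) → T1}
    {r : (Fin 4 → ℝ) → ℤ × ℤ} (hB : IsOpen B) (hg : ContinuousOn g B)
    (hr : ∀ y ∈ B, ∀ᶠ y' in 𝓝 y, r y' = r y)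
    {K : Set (Fin 4 → ℝ)} (hK : IsCompact K) (hKB : K ⊆ B) :
    ∀ᶠ h in 𝓝 (0 : ℝ), ∀ y ∈ K, Good B g r h y := by
  apply hK.eventually_forall_of_forall_eventually
  intro y₀ hy₀
  have h1 := hKB hy₀
  have hO : IsOpen {z | z ∈ B ∧ r z = r y₀} := by
    rw [isOpen_iff_mem_nhds]
    rintro z ⟨hz, hz'⟩
    filter_upwards [hB.mem_nhds hz, hr z hz] with w hw hw'
    exact ⟨hw, hw'.trans hz'⟩
  obtain ⟨η, hη, H⟩ := local_good hO (hg.mono (fun z hz => hz.1)) ⟨h1, rfl⟩
  set D : ℝ := |((r y₀).1 : ℝ)| + |((r y₀).2 : ℝ)| with hD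
  have hD0 : 0 ≤ D := by positivity
  have hD1 : 0 < 1 / (16 * (D + 1)) := by positivity
  have : ∀ᶠ z : ℝ × (Fin 4 → ℝ) in 𝓝 ((0 : ℝ), y₀),
      dist z ((0 : ℝ), y₀) < min η (1 / (16 * (D + 1))) :=
    Metric.eventually_nhds_iff_ball.2 ⟨_, lt_min hη hD1, fun z hz => hz⟩
  filter_upwards [this] with z hz
  rw [Prod.dist_eq, max_lt_iff] at hz
  have hz1 : |z.1| < min η (1 / (16 * (D + 1))) := by
    have := hz.1
    simpa [Real.dist_eq] using this
  obtain ⟨H1, H2⟩ := H z.1 z.2 (hz1.trans_le (min_le_left _ _))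
    (hz.2.trans_le (min_le_left _ _))
  have hry : r z.2 = r y₀ :=
    (H1 (Metric.mem_closedBall_self (by positivity))).2
  refine ⟨?_, H2, ?_⟩
  · rw [hry]; exact H1
  · rw [hry, ← hD]
    have h3 : |z.1| < 1 / (16 * (D + 1)) := hz1.trans_le (min_le_right _ _)
    have h4 : |z.1| * D ≤ 1 / (16 * (D + 1)) * D :=
      mul_le_mul_of_nonneg_right h3.le hD0
    have h5 : 1 / (16 * (D + 1)) * D < 1 / 16 := by
      rw [div_mul_eq_mul_div, one_mul, div_lt_div_iff₀ (by positivity) (by norm_num)]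
      nlinarith
    linarith

/-- periodic set -/
def Per (B : Set (Fin 4 → ℝ)) : Prop := ∀ y j, y ∈ B ↔ y + ee j ∈ B

section
variable {N : ℕ} [NeZero N]

theorem Per.wr {B : Set (Fin 4 → ℝ)} (hB : Per B) (x : G4 N) (j : Fin 4) (y : Fin 4 → ℝ) :
    y + wr j x • ee j ∈ B ↔ y ∈ B := by
  rcases wr_cases j x with h | h
  · rw [h]; simp
  · rw [h, one_smul]; exact (hB y j).symm

def In (B : Set (Fin 4 → ℝ)) (k : ℕ) (x : G4 N) : Prop :=
  Metric.closedBall (pt x) (k * (1 / (N : ℝ))) ⊆ B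

theorem In.step (hN : 2 ≤ N) {B : Set (Fin 4 → ℝ)} (hB : Per B) {k : ℕ} {x : G4 N}
    (h : In B (k + 1) x) (j : Fin 4) : In B k (x + E4 N j) := by
  intro y hy
  rw [← hB.wr x j]
  apply h
  rw [Metric.mem_closedBall] at *
  have e := pt_add hN x j
  have e1 : y + wr j x • ee j - pt x = (y - pt (x + E4 N j)) + (1 / (N : ℝ)) • ee j := by
    have : (1 / (N : ℝ)) • ee j = pt (x + E4 N j) + wr j x • ee j - pt x := by
      rw [e]; abel
    rw [this]; abel
  rw [dist_eq_norm] at *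
  rw [e1]
  have h1 := norm_add_le (y - pt (x + E4 N j)) ((1 / (N : ℝ)) • ee j)
  have h2 := norm_smul_ee (1 / (N : ℝ)) j
  have h3 : (0 : ℝ) ≤ 1 / (N : ℝ) := by positivity
  rw [abs_of_nonneg h3] at h2
  push_cast
  linarith

theorem In.mem {B : Set (Fin 4 → ℝ)} {k : ℕ} {x : G4 N} (h : In B k x) : pt x ∈ B :=
  h (Metric.mem_closedBall_self (by positivity))

theorem In.pred {B : Set (Fin 4 → ℝ)} {k : ℕ} {x : G4 N} (h : In B (k + 1) x) : In B k x := by
  refine (Metric.closedBall_subset_closedBall ?_).trans h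
  have h3 : (0 : ℝ) ≤ 1 / (N : ℝ) := by positivity
  push_cast
  linarith

end


section
variable {N : ℕ} [NeZero N]

theorem shift (hN : 2 ≤ N) {B : Set (Fin 4 → ℝ)} {g : (Fin 4 → ℝ) → T1}
    (T : Fin 4 → (Fin 4 → ℝ) → ℝ) (hper : ∀ y ∈ B, ∀ j, g (y + ee j) = g y + ((T j y : ℝ) : T1))
    (z : G4 N) (j : Fin 4) (hz : pt (z + E4 N j) ∈ B) :
    g (pt z + (1 / (N : ℝ)) • ee j) =
      g (pt (z + E4 N j)) + ((wr j z * T j (pt (z + E4 N j)) : ℝ) : T1) := by
  rw [← pt_add hN]
  rcases wr_cases j z with h | h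
  · rw [h]; simp
  · rw [h, one_smul, hper _ hz, one_mul]

theorem small_of (hN : 2 ≤ N) {B : Set (Fin 4 → ℝ)} {g : (Fin 4 → ℝ) → T1}
    (T : Fin 4 → (Fin 4 → ℝ) → ℝ) (hper : ∀ y ∈ B, ∀ j, g (y + ee j) = g y + ((T j y : ℝ) : T1))
    (A : Fin 4 → G4 N → ℝ)
    (z : G4 N) (j : Fin 4) (hz : pt (z + E4 N j) ∈ B)
    (hs : ‖g (pt z + (1 / (N : ℝ)) • ee j) - g (pt z)‖ < 1 / 16)
    (hA : |A j z - wr j z * T j (pt (z + E4 N j))| ≤ 1 / 16) :
    Sm (fun z => g (pt z)) A j z := by
  unfold Sm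
  have h1 := shift hN T hper z j hz
  have h2 : g (pt (z + E4 N j)) - g (pt z) + (A j z : T1) =
      (g (pt z + (1 / (N : ℝ)) • ee j) - g (pt z)) +
        ((A j z - wr j z * T j (pt (z + E4 N j)) : ℝ) : T1) := by
    rw [h1, AddCircle.coe_sub]
    abel
  change ‖g (pt (z + E4 N j)) - g (pt z) + (A j z : T1)‖ < 1 / 8
  rw [h2]
  have h3 := norm_add_le (g (pt z + (1 / (N : ℝ)) • ee j) - g (pt z))
    ((A j z - wr j z * T j (pt (z + E4 N j)) : ℝ) : T1)
  have h4 := norm_coe_le (A j z - wr j z * T j (pt (z + E4 N j)))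
  linarith


/-- the connection with label `(p, q)` -/
noncomputable def AG (s : ℤ × ℤ) (j : Fin 4) (z : G4 N) : ℝ :=
  conn 2 3 s.1 j z + conn 0 1 (-s.2) j z

theorem smallG (hN : 2 ≤ N) (s : ℤ × ℤ) {B : Set (Fin 4 → ℝ)} {g : (Fin 4 → ℝ) → T1}
    (hper : ∀ y ∈ B, ∀ j, g (y + ee j) = g y +
      (((if j = 3 then s.1 * y 2 else if j = 1 then -(s.2 * y 0) else 0 : ℝ)) : T1))
    (hq : (1 / (N : ℝ)) * (|(s.1 : ℝ)| + |(s.2 : ℝ)|) < 1 / 16)
    (z : G4 N) (j : Fin 4) (hz : pt (z + E4 N j) ∈ B)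
    (hs : ‖g (pt z + (1 / (N : ℝ)) • ee j) - g (pt z)‖ < 1 / 16) :
    Sm (fun z => g (pt z)) (AG s) j z := by
  apply small_of (by omega) (fun j y => if j = 3 then s.1 * y 2 else if j = 1 then
    -(s.2 * y 0) else 0) hper _ z j hz hs
  have hN0 : (0 : ℝ) < N := by
    have : (2 : ℝ) ≤ N := by exact_mod_cast hN
    linarith
  have hh0 : 0 < (1 / (N : ℝ)) := by positivity
  have n1 := abs_nonneg (s.1 : ℝ)
  have n2 := abs_nonneg (s.2 : ℝ)
  have bnd : ∀ (m : ℤ) (t : ℝ), |(m : ℝ)| ≤ |(s.1 : ℝ)| + |(s.2 : ℝ)| → 0 ≤ t → t ≤ 1 →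
      |(m : ℝ) * (0 - 1 / (N : ℝ) * t)| ≤ 1 / 16 := by
    intro m t hm ht0 ht1
    rw [zero_sub, mul_neg, abs_neg, abs_mul, abs_mul, abs_of_pos hh0, abs_of_nonneg ht0]
    have h1 : |(m : ℝ)| * t ≤ |(s.1 : ℝ)| + |(s.2 : ℝ)| := by
      have := mul_le_mul_of_nonneg_left ht1 (abs_nonneg (m : ℝ))
      linarith
    have h2 := mul_le_mul_of_nonneg_left h1 hh0.le
    have e : |(m : ℝ)| * (1 / (N : ℝ) * t) = 1 / (N : ℝ) * (|(m : ℝ)| * t) := by ring
    rw [e]
    linarith
  unfold AG conn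
  fin_cases j
  · have h3 := bnd (-s.2) (pt z 1) (by push_cast; rw [abs_neg]; linarith) (pt_nonneg z 1)
      (pt_le_one z 1)
    simpa using h3
  · have : pt (z + E4 N 1) 0 = pt z 0 := pt_of_ne (by decide) z
    simp [this]
    rw [show -((s.2 : ℝ) * (wr 1 z * pt z 0)) + wr 1 z * (s.2 * pt z 0) = 0 by ring]
    norm_num
  · have h3 := bnd s.1 (pt z 3) (by linarith) (pt_nonneg z 3)
      (pt_le_one z 3)
    simpa using h3
  · have : pt (z + E4 N 3) 2 = pt z 2 := pt_of_ne (by decide) z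
    simp [this]
    rw [show ((s.1 : ℝ) * (wr 3 z * pt z 2)) - wr 3 z * (s.1 * pt z 2) = 0 by ring]
    norm_num

theorem curvG (hN : 2 ≤ N) (s : ℤ × ℤ) {i j : Fin 4} (hij : i < j) (z : G4 N) :
    ((AG s j (z + E4 N i) - AG s j z - (AG s i (z + E4 N j) - AG s i z) : ℝ) : T1) =
      (((if i = 2 ∧ j = 3 then s.1 * (1 / (N : ℝ)) ^ 2 else 0) -
        (if i = 0 ∧ j = 1 then s.2 * (1 / (N : ℝ)) ^ 2 else 0) : ℝ) : T1) := by
  have h1 := curv hN (p := 2) (s := 3) (by decide) s.1 hij z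
  have h2 := curv hN (p := 0) (s := 1) (by decide) (-s.2) hij z
  have e : AG s j (z + E4 N i) - AG s j z - (AG s i (z + E4 N j) - AG s i z) =
      (conn 2 3 s.1 j (z + E4 N i) - conn 2 3 s.1 j z -
        (conn 2 3 s.1 i (z + E4 N j) - conn 2 3 s.1 i z)) +
      (conn 0 1 (-s.2) j (z + E4 N i) - conn 0 1 (-s.2) j z -
        (conn 0 1 (-s.2) i (z + E4 N j) - conn 0 1 (-s.2) i z)) := by
    unfold AG; ring
  rw [e, AddCircle.coe_add, h1, h2, ← AddCircle.coe_add]
  congr 1
  push_cast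
  split_ifs <;> ring

/-- points near `C` -/
def Nr (C : Set (Fin 4 → ℝ)) (ρ : ℝ) : Set (Fin 4 → ℝ) := {y | ∃ c ∈ C, dist y c < ρ}
/-- points far from `C` -/
def Fr (C : Set (Fin 4 → ℝ)) (ρ : ℝ) : Set (Fin 4 → ℝ) := {y | ∀ c ∈ C, ρ ≤ dist y c}

theorem per_Nr {C : Set (Fin 4 → ℝ)} (hC : Per C) (ρ : ℝ) : Per (Nr C ρ) := by
  intro y j
  constructor
  · rintro ⟨c, hc, h⟩
    exact ⟨c + ee j, (hC c j).1 hc, by simpa using h⟩
  · rintro ⟨c, hc, h⟩
    refine ⟨c - ee j, (hC _ j).2 (by simpa using hc), ?_⟩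
    have : dist y (c - ee j) = dist (y + ee j) c := by
      rw [dist_eq_norm, dist_eq_norm]; congr 1; abel
    rwa [this]

theorem per_Fr {C : Set (Fin 4 → ℝ)} (hC : Per C) (ρ : ℝ) : Per (Fr C ρ) := by
  have : Fr C ρ = (Nr C ρ)ᶜ := by
    ext y; simp [Fr, Nr]
  intro y j
  rw [this, mem_compl_iff, mem_compl_iff, per_Nr hC ρ y j]

open Classical in
/-- chosen nearby point of `C` -/
noncomputable def cc (C : Set (Fin 4 → ℝ)) (ρ : ℝ) (z : G4 N) : Fin 4 → ℝ :=
  if h : ∃ c ∈ C, dist (pt z) c < ρ then h.choose else 0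

theorem cc_spec {C : Set (Fin 4 → ℝ)} {ρ : ℝ} {z : G4 N} (h : pt z ∈ Nr C ρ) :
    cc C ρ z ∈ C ∧ dist (pt z) (cc C ρ z) < ρ := by
  have h' : ∃ c ∈ C, dist (pt z) c < ρ := h
  unfold cc
  rw [dif_pos h']
  exact h'.choose_spec

noncomputable def sig (p s : Fin 4) (C : Set (Fin 4 → ℝ)) (f : (Fin 4 → ℝ) → T1) (ρ : ℝ) (z : G4 N) : T1 :=
  f (cc C ρ z) + (((pt z p - cc C ρ z p) * cc C ρ z s : ℝ) : T1)

theorem norm_pt_le (z : G4 N) : ‖pt z‖ ≤ 1 := by
  rw [pi_norm_le_iff_of_nonneg zero_le_one]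
  intro i
  rw [Real.norm_eq_abs, abs_of_nonneg (pt_nonneg z i)]
  exact pt_le_one z i

theorem smallA {P S : Fin 4} (hPS : P ≠ S) {δ : ℝ} (hδ : 0 < δ) (hδ1 : δ ≤ 1 / 1000) (hN : 2 ≤ N) (hNδ : 1 / (N : ℝ) < δ)
    {C : Set (Fin 4 → ℝ)} (hC : Per C)
    {f : (Fin 4 → ℝ) → T1}
    (hf : ∀ y ∈ C, ∀ j, f (y + ee j) = f y + (if j = S then ((y P : ℝ) : T1) else 0))
    (huc : ∀ a ∈ C ∩ Metric.closedBall 0 3, ∀ b ∈ C ∩ Metric.closedBall 0 3,
      dist a b < 7 * δ → dist (f a) (f b) < 1 / 32)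
    (z : G4 N) (j : Fin 4) (hz : pt z ∈ Nr C (3 * δ)) (hz' : pt (z + E4 N j) ∈ Nr C (3 * δ)) :
    Sm (sig P S C f (3 * δ)) (conn P S 1) j z := by
  obtain ⟨hc, hd⟩ := cc_spec hz
  obtain ⟨hc', hd'⟩ := cc_spec hz'
  unfold Sm sig
  set c := cc C (3 * δ) z with hcdef
  set c' := cc C (3 * δ) (z + E4 N j) with hcdef'
  set p := pt z with hp
  set p' := pt (z + E4 N j) with hp'
  set w := wr j z with hw
  have hh0 : (0 : ℝ) < 1 / N := by
    have : (2 : ℝ) ≤ N := by exact_mod_cast hN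
    positivity
  have epp : p' + w • ee j = p + (1 / (N : ℝ)) • ee j := pt_add hN z j
  have hw01 : w = 0 ∨ w = 1 := wr_cases j z
  have hc'' : c' + w • ee j ∈ C := (hC.wr z j c').2 hc'
  have hf'' : f (c' + w • ee j) = f c' + ((if j = S then w * c' P else 0 : ℝ) : T1) := by
    rcases hw01 with h | h
    · rw [h]; simp
    · rw [h, one_smul, hf _ hc' j]
      split_ifs <;> simp
  -- norms
  have hnp : ‖p‖ ≤ 1 := norm_pt_le z
  have hnp' : ‖p'‖ ≤ 1 := norm_pt_le _
  have hnw : ‖w • ee j‖ ≤ 1 := by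
    refine (norm_smul_ee w j).trans ?_
    rcases hw01 with h | h <;> rw [h] <;> simp
  have hnh : ‖(1 / (N : ℝ)) • ee j‖ ≤ 1 / (N : ℝ) := by
    refine (norm_smul_ee _ j).trans ?_
    rw [abs_of_pos hh0]
  rw [dist_eq_norm] at hd hd'
  have hnc : ‖c‖ ≤ 3 := by
    have : c = p - (p - c) := by abel
    rw [this]
    have := norm_sub_le p (p - c)
    linarith
  have hnc' : ‖c' + w • ee j‖ ≤ 3 := by
    have e : c' + w • ee j = (p' - (p' - c')) + w • ee j := by abel
    rw [e]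
    have h1 := norm_add_le (p' - (p' - c')) (w • ee j)
    have h2 := norm_sub_le p' (p' - c')
    linarith
  have hdist : dist (c' + w • ee j) c < 7 * δ := by
    rw [dist_eq_norm]
    have e : c' + w • ee j - c = (-(p' - c') + (1 / (N : ℝ)) • ee j) + (p - c) := by
      have : (1 / (N : ℝ)) • ee j = p' + w • ee j - p := by rw [epp]; abel
      rw [this]; abel
    rw [e]
    have h1 := norm_add_le (-(p' - c') + (1 / (N : ℝ)) • ee j) (p - c)
    have h2 := norm_add_le (-(p' - c')) ((1 / (N : ℝ)) • ee j)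
    rw [norm_neg] at h2
    linarith
  have hfd := huc (c' + w • ee j) ⟨hc'', by simpa using hnc'⟩ c ⟨hc, by simpa using hnc⟩ hdist
  -- main identity
  set R : ℝ := -(if j = S then w * c' P else 0) + (p' P - c' P) * c' S - (p P - c P) * c S +
    conn P S 1 j z with hR
  have hmain : f c' + (((p' P - c' P) * c' S : ℝ) : T1) - (f c + (((p P - c P) * c S : ℝ) : T1)) +
      ((conn P S 1 j z : ℝ) : T1) = (f (c' + w • ee j) - f c) + (R : T1) := by
    rw [hf'', hR]
    simp only [AddCircle.coe_add, AddCircle.coe_sub, AddCircle.coe_neg]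
    abel
  have hco : ∀ i, |p i - c i| ≤ 3 * δ := by
    intro i
    have := norm_le_pi_norm (p - c) i
    simp only [Pi.sub_apply, Real.norm_eq_abs] at this
    linarith
  have hco' : ∀ i, |p' i - c' i| ≤ 3 * δ := by
    intro i
    have := norm_le_pi_norm (p' - c') i
    simp only [Pi.sub_apply, Real.norm_eq_abs] at this
    linarith
  have hRb : |R| ≤ 1 / 32 := by
    have p0 := pt_nonneg z S
    have p1 := pt_le_one z S
    have q0 := pt_nonneg (z + E4 N j) S
    have q1 := pt_le_one (z + E4 N j) S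
    rw [← hp] at p0 p1
    rw [← hp'] at q0 q1
    have c1 : |c S| ≤ 2 := by
      have := abs_le.1 (hco S)
      rw [abs_le]; constructor <;> linarith [this.1, this.2]
    have c1' : |c' S + w| ≤ 3 := by
      have := abs_le.1 (hco' S)
      rw [abs_le]
      rcases hw01 with h | h <;> rw [h] <;> constructor <;> linarith [this.1, this.2]
    have c1'' : |c' S| ≤ 3 := by
      have := abs_le.1 (hco' S)
      rw [abs_le]
      constructor <;> linarith [this.1, this.2]
    have m1 : |(p P - c P) * c S| ≤ 3 * δ * 2 := by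
      rw [abs_mul]
      exact mul_le_mul (hco P) c1 (abs_nonneg _) (by positivity)
    have m2 : |(p' P - c' P) * (c' S + w)| ≤ 3 * δ * 3 := by
      rw [abs_mul]
      exact mul_le_mul (hco' P) c1' (abs_nonneg _) (by positivity)
    have m3 : |(p' P - c' P) * c' S| ≤ 3 * δ * 3 := by
      rw [abs_mul]
      exact mul_le_mul (hco' P) c1'' (abs_nonneg _) (by positivity)
    rw [abs_le] at m1 m2 m3
    by_cases hj : j = S
    · have hjs := hj.symm
      subst hjs
      have e0 : p' P = p P := pt_of_ne hPS z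
      have e : R = (p' P - c' P) * (c' S + w) - (p P - c P) * c S := by
        rw [hR]
        unfold conn
        simp only [if_true]
        rw [← hw, ← hp]
        have h10 : S ≠ P := hPS.symm
        simp only [h10, if_false]
        push_cast
        rw [e0]
        ring
      rw [e, abs_le]
      constructor <;> linarith [m1.1, m1.2, m2.1, m2.2]
    · by_cases hj0 : j = P
      · have hjs := hj0.symm
        subst hjs
        have e : R = (p' P - c' P) * c' S - (p P - c P) * c S - (1 / (N : ℝ)) * p S := by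
          rw [hR]
          unfold conn
          simp only [if_true, hj, if_false]
          rw [← hp]
          push_cast
          ring
        have m4 : (1 / (N : ℝ)) * p S ≤ δ * 1 := mul_le_mul hNδ.le p1 p0 hδ.le
        have m5 : 0 ≤ (1 / (N : ℝ)) * p S := by positivity
        rw [e, abs_le]
        constructor <;> linarith [m1.1, m1.2, m3.1, m3.2]
      · have e : R = (p' P - c' P) * c' S - (p P - c P) * c S := by
          rw [hR]
          unfold conn
          simp only [hj, hj0, if_false]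
          ring
        rw [e, abs_le]
        constructor <;> linarith [m1.1, m1.2, m3.1, m3.2]
  rw [hmain]
  have h3 := norm_add_le (f (c' + w • ee j) - f c) (R : T1)
  have h4 := norm_coe_le R
  rw [dist_eq_norm] at hfd
  linarith

end


end Pool.Agent.Helper15.FQ4
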