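import Pool.Agent.Helper15.FQ.Torus4

set_option autoImplicit false
set_option linter.unusedSectionVars false
open Set Topology
open scoped ContDiff

namespace Pool.Agent.Helper15.FQ4
open Pool.Agent.H289R3.FQ (T1)
open Pool.Agent.H790.FQ (norm_coe_le coe_int exists_sm sm sm_coe sm_abs eq_of_coe)

section
variable {N : ℕ} [NeZero N]

theorem FF_int (hN : 2 ≤ N) {p q : Fin 4} (hpq : p < q) (τ : G4 N → T1) {i j : Fin 4} (hij : i < j)
    (x : G4 N) : ∃ n : ℤ, FF p q (1 / (N : ℝ) ^ 2) (bb τ (conn p q 1)) i j x = n := by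
  have h1 := curv hN hpq 1 hij x
  have h2 : ((dd (bb τ (conn p q 1)) i j x : ℝ) : T1) =
      (((if i = p ∧ j = q then (1 : ℤ) * (1 / (N : ℝ)) ^ 2 else 0 : ℝ)) : T1) := by
    rw [← h1]
    unfold dd
    simp only [AddCircle.coe_sub, bb, sm_coe]
    have : x + E4 N i + E4 N j = x + E4 N j + E4 N i := by abel
    rw [this]
    abel
  have h3 : ((FF p q (1 / (N : ℝ) ^ 2) (bb τ (conn p q 1)) i j x : ℝ) : T1) = 0 := by
    unfold FF
    rw [AddCircle.coe_sub, h2, ← AddCircle.coe_sub]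
    have h4 : ¬ (j = p ∧ i = q) := by
      rintro ⟨rfl, rfl⟩
      exact absurd (hij.trans hpq) (lt_irrefl _)
    rw [if_neg h4]
    split_ifs
    · rw [show (1 / (N : ℝ) ^ 2 * (1 - 0) - ((1 : ℤ) : ℝ) * (1 / (N : ℝ)) ^ 2) = 0 by
        push_cast; ring]
      simp
    · simp
  rw [AddCircle.coe_eq_zero_iff] at h3
  obtain ⟨n, hn⟩ := h3
  exact ⟨n, by rw [← hn]; simp⟩

theorem zero_of_lt {F : Fin 4 → Fin 4 → G4 N → ℝ} (hF : Cl F) {x : G4 N}
    (h : ∀ i j, i < j → F i j x = 0) (i j : Fin 4) : F i j x = 0 := by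
  rcases lt_trichotomy i j with hij | hij | hij
  · exact h i j hij
  · subst hij
    have := hF.anti i i x
    linarith
  · rw [hF.anti j i x, h j i hij, neg_zero]

end

/-- **The obstruction on the four-torus.** -/
theorem torus4 (C : Set (Fin 4 → ℝ)) (hCc : IsClosed C) (hC : Per C) (fa fb : (Fin 4 → ℝ) → T1)
    (hfac : ContinuousOn fa C) (hfbc : ContinuousOn fb C)
    (hfa : ∀ y ∈ C, ∀ j, fa (y + ee j) = fa y + (if j = 1 then ((y 0 : ℝ) : T1) else 0))
    (hfb : ∀ y ∈ C, ∀ j, fb (y + ee j) = fb y + (if j = 3 then ((y 2 : ℝ) : T1) else 0))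
    (H : ∀ δ > 0, ∃ (B : Set (Fin 4 → ℝ)) (g : (Fin 4 → ℝ) → T1) (s : (Fin 4 → ℝ) → ℤ × ℤ),
      IsOpen B ∧ Per B ∧ (∀ y, (∀ c ∈ C, δ ≤ dist y c) → y ∈ B) ∧ ContinuousOn g B ∧
      (∀ y ∈ B, IsCoprime (s y).1 (s y).2) ∧ (∀ y ∈ B, ∀ᶠ y' in 𝓝 y, s y' = s y) ∧
      (∀ y ∈ B, ∀ j, s (y + ee j) = s y) ∧
      (∀ y ∈ B, ∀ j, g (y + ee j) = g y +
        (((if j = 3 then (s y).1 * y 2 else if j = 1 then -((s y).2 * y 0) else 0 : ℝ)) : T1))) :
    False := by
  -- uniform continuity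
  have hcomp : IsCompact (C ∩ Metric.closedBall (0 : Fin 4 → ℝ) 3) :=
    (isCompact_closedBall _ _).inter_left hCc
  have huca := hcomp.uniformContinuousOn_of_continuous (hfac.mono inter_subset_left)
  have hucb := hcomp.uniformContinuousOn_of_continuous (hfbc.mono inter_subset_left)
  rw [Metric.uniformContinuousOn_iff] at huca hucb
  obtain ⟨ηa, hηa, huca⟩ := huca (1 / 32) (by norm_num)
  obtain ⟨ηb, hηb, hucb⟩ := hucb (1 / 32) (by norm_num)
  set δ : ℝ := min (min ηa ηb / 7) (1 / 1000) with hδdef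
  have hδ : 0 < δ := by positivity
  have hδ1 : δ ≤ 1 / 1000 := min_le_right _ _
  have hδ2 : 7 * δ ≤ min ηa ηb := by
    have := min_le_left (min ηa ηb / 7) (1 / 1000 : ℝ)
    linarith
  have huca' : ∀ a ∈ C ∩ Metric.closedBall 0 3, ∀ b ∈ C ∩ Metric.closedBall 0 3,
      dist a b < 7 * δ → dist (fa a) (fa b) < 1 / 32 := fun a ha b hb hab =>
    huca a ha b hb (hab.trans_le (hδ2.trans (min_le_left _ _)))
  have hucb' : ∀ a ∈ C ∩ Metric.closedBall 0 3, ∀ b ∈ C ∩ Metric.closedBall 0 3,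
      dist a b < 7 * δ → dist (fb a) (fb b) < 1 / 32 := fun a ha b hb hab =>
    hucb a ha b hb (hab.trans_le (hδ2.trans (min_le_right _ _)))
  obtain ⟨B, g, s, hB, hP, hcov, hg, hcop, hs, hsp, hper⟩ := H δ hδ
  -- compact set
  set K : Set (Fin 4 → ℝ) := Icc 0 1 ∩ Fr C δ with hK
  have hFc : IsClosed (Fr C δ) := by
    have : Fr C δ = ⋂ c ∈ C, {y | δ ≤ dist y c} := by ext y; simp [Fr]
    rw [this]
    exact isClosed_biInter fun c _ => isClosed_le continuous_const (continuous_id.dist continuous_const)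
  have hKc : IsCompact K := isCompact_Icc.inter_right hFc
  have hev := eventually_good hB hg hs hKc (fun y hy => hcov y hy.2)
  have hlim : Filter.Tendsto (fun n : ℕ => 1 / (n : ℝ)) Filter.atTop (𝓝 0) :=
    tendsto_one_div_atTop_nhds_zero_nat
  have hev1 := hlim.eventually hev
  have hev2 : ∀ᶠ n : ℕ in Filter.atTop, 1 / (n : ℝ) < δ / 10 :=
    hlim.eventually (gt_mem_nhds (by positivity))
  obtain ⟨N, hN1, hN2, hN16⟩ := (hev1.and (hev2.and (Filter.eventually_ge_atTop 16))).exists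
  have : NeZero N := ⟨by omega⟩
  have hN : 2 ≤ N := by omega
  have hN' : (16 : ℝ) ≤ N := by exact_mod_cast hN16
  have hNpos : (0 : ℝ) < N := by linarith
  set h : ℝ := 1 / (N : ℝ) with hh
  have hh0 : 0 < h := by positivity
  have hh1 : h ≤ 1 / 16 := one_div_le_one_div_of_le (by norm_num) hN'
  have habs : |h| = h := abs_of_pos hh0
  have hbox : ∀ z : G4 N, pt z ∈ Icc (0 : Fin 4 → ℝ) 1 := fun z =>
    ⟨fun i => pt_nonneg z i, fun i => pt_le_one z i⟩
  have hgood : ∀ z : G4 N, pt z ∈ Fr C δ → Good B g s h (pt z) := fun z hz =>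
    hN1 _ ⟨hbox z, hz⟩
  have hPq : ∀ q : ℤ × ℤ, Per {y | y ∈ B ∧ s y = q} := by
    intro q y j
    constructor
    · rintro ⟨h1, h2⟩
      exact ⟨(hP y j).1 h1, (hsp y h1 j).trans h2⟩
    · rintro ⟨h1, h2⟩
      have h3 := (hP y j).2 h1
      exact ⟨h3, (hsp y h3 j).symm.trans h2⟩
  have hS1 : ∀ (q : ℤ × ℤ) (k : ℕ) (z : G4 N) (j : Fin 4), In {y | y ∈ B ∧ s y = q} (k + 1) z →
      In (Fr C δ) (k + 1) z →
      Sm (fun z => g (pt z)) (AG q) j z := by
    intro q k z j h1 h2
    have hmem := h1.mem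
    obtain ⟨hg1, hg2, hg3⟩ := hgood z h2.mem
    rw [hmem.2, habs] at hg3
    have hper' : ∀ y ∈ {y | y ∈ B ∧ s y = q}, ∀ j, g (y + ee j) = g y +
        (((if j = 3 then q.1 * y 2 else if j = 1 then -(q.2 * y 0) else 0 : ℝ)) : T1) := by
      rintro y ⟨hy, rfl⟩ j
      exact hper y hy j
    exact smallG hN q hper' hg3 z j (h1.step hN (hPq q) j).mem (hg2 j)
  have hκ : |h ^ 2| < 1 / 2 := by
    rw [abs_of_nonneg (by positivity)]; nlinarith
  have hκe : h ^ 2 = 1 / (N : ℝ) ^ 2 := by rw [hh]; ring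
  set α : Fin 4 → G4 N → ℝ := bb (sig 0 1 C fa (3 * δ)) (conn 0 1 1) with hα
  set β : Fin 4 → G4 N → ℝ := bb (sig 2 3 C fb (3 * δ)) (conn 2 3 1) with hβ
  have ha := FF_cl 0 1 (1 / (N : ℝ) ^ 2) α
  have hb := FF_cl 2 3 (1 / (N : ℝ) ^ 2) β
  -- vanishing near `C`
  have hzero : ∀ x : G4 N, In (Nr C (3 * δ)) 3 x →
      (∀ i j, FF 0 1 (1 / (N : ℝ) ^ 2) α i j x = 0) ∧
      (∀ i j, FF 2 3 (1 / (N : ℝ) ^ 2) β i j x = 0) := by
    intro x hIn
    have hCδ := per_Nr hC (3 * δ)
    have i1 := fun j => In.step hN hCδ hIn j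
    have i2 := fun i j => In.step hN hCδ (i1 i) j
    constructor
    · refine zero_of_lt ha ?_
      intro i j hij
      have hfl : dd α i j x = (if i = 0 ∧ j = 1 then h ^ 2 else 0) := by
        apply flat
        · split_ifs
          · exact hκ
          · norm_num
        · rw [curv hN (by decide) 1 hij x]
          push_cast
          rw [one_mul]
        · exact smallA (by decide) hδ hδ1 hN (by linarith) hC hfa huca' _ _ (i1 i).mem (i2 i j).mem
        · exact smallA (by decide) hδ hδ1 hN (by linarith) hC hfa huca' _ _ hIn.mem (i1 j).mem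
        · exact smallA (by decide) hδ hδ1 hN (by linarith) hC hfa huca' _ _ (i1 j).mem (i2 j i).mem
        · exact smallA (by decide) hδ hδ1 hN (by linarith) hC hfa huca' _ _ hIn.mem (i1 i).mem
      have h4 : ¬ (j = 0 ∧ i = 1) := by
        rintro ⟨rfl, rfl⟩
        exact absurd hij (by decide)
      unfold FF
      rw [hfl, if_neg h4, ← hκe]
      split_ifs <;> ring
    · refine zero_of_lt hb ?_
      intro i j hij
      have hfl : dd β i j x = (if i = 2 ∧ j = 3 then h ^ 2 else 0) := by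
        apply flat
        · split_ifs
          · exact hκ
          · norm_num
        · rw [curv hN (by decide) 1 hij x]
          push_cast
          rw [one_mul]
        · exact smallA (by decide) hδ hδ1 hN (by linarith) hC hfb hucb' _ _ (i1 i).mem (i2 i j).mem
        · exact smallA (by decide) hδ hδ1 hN (by linarith) hC hfb hucb' _ _ hIn.mem (i1 j).mem
        · exact smallA (by decide) hδ hδ1 hN (by linarith) hC hfb hucb' _ _ (i1 j).mem (i2 j i).mem
        · exact smallA (by decide) hδ hδ1 hN (by linarith) hC hfb hucb' _ _ hIn.mem (i1 i).mem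
      have h4 : ¬ (j = 2 ∧ i = 3) := by
        rintro ⟨rfl, rfl⟩
        exact absurd hij (by decide)
      unfold FF
      rw [hfl, if_neg h4, ← hκe]
      split_ifs <;> ring
  have hnear : ∀ x : G4 N, pt x ∈ Nr C (2 * δ) → In (Nr C (3 * δ)) 5 x := by
    rintro x ⟨c, hc, hcd⟩ y hy
    refine ⟨c, hc, ?_⟩
    rw [Metric.mem_closedBall] at hy
    have := dist_triangle y (pt x) c
    push_cast at hy
    rw [← hh] at hy
    linarith
  have hfar : ∀ x : G4 N, pt x ∉ Nr C (2 * δ) → In (Fr C δ) 5 x := by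
    intro x hx y hy c hc
    rw [Metric.mem_closedBall] at hy
    push_cast at hy
    rw [← hh] at hy
    by_contra hlt
    push Not at hlt
    apply hx
    refine ⟨c, hc, ?_⟩
    have := dist_triangle_left (pt x) c y
    linarith
  have hlabIn : ∀ x : G4 N, pt x ∉ Nr C (2 * δ) → In {y | y ∈ B ∧ s y = s (pt x)} 5 x := by
    intro x hx
    obtain ⟨hg1, -, -⟩ := hgood x (hfar x hx).mem
    rw [habs] at hg1
    unfold In
    push_cast
    exact hg1
  classical
  let lab : G4 N → ℤ × ℤ := fun x => if pt x ∈ Nr C (2 * δ) then 0 else s (pt x)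
  have hlab : ∀ x, pt x ∉ Nr C (2 * δ) → lab x = s (pt x) := fun x hx => if_neg hx
  have hlab0 : ∀ x, pt x ∈ Nr C (2 * δ) → lab x = 0 := fun x hx => if_pos hx
  have hne : ∀ x, pt x ∉ Nr C (2 * δ) → lab x ≠ 0 := by
    intro x hx h0
    rw [hlab x hx] at h0
    have := hcop (pt x) (hlabIn x hx).mem.1
    rw [h0] at this
    have h3 : IsCoprime (0 : ℤ) 0 := this
    rw [isCoprime_zero_left] at h3
    exact not_isUnit_zero h3
  have hNp := per_Nr hC (3 * δ)
  refine combi4 ha hb (FF_PP α β) (fun i j x hij => FF_int hN (by decide) _ hij x)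
    (fun i j x hij => FF_int hN (by decide) _ hij x) lab
    (fun q j z => bb (fun z => g (pt z)) (AG q) j z - q.1 * β j z + q.2 * α j z) ?_ ?_ ?_ ?_
  · intro x
    by_cases hx : pt x ∈ Nr C (2 * δ)
    · left
      exact hzero x ((hnear x hx).pred).pred
    · right
      exact hne x hx
  · intro x k
    by_cases hx : pt x ∈ Nr C (2 * δ)
    · left
      exact hzero _ ((In.step hN hNp (hnear x hx) k)).pred
    by_cases hx' : pt (x + E4 N k) ∈ Nr C (2 * δ)
    · left
      exact hzero _ ((hnear _ hx').pred).pred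
    · right
      rw [hlab _ hx, hlab _ hx']
      exact (In.step hN (hPq _) (hlabIn x hx) k).mem.2
  · intro x k l
    by_cases hx : pt x ∈ Nr C (2 * δ)
    · left
      exact hzero _ (In.step hN hNp (In.step hN hNp (hnear x hx) k) l)
    by_cases hx' : pt (x + E4 N k + E4 N l) ∈ Nr C (2 * δ)
    · left
      exact hzero _ ((hnear _ hx').pred).pred
    · right
      rw [hlab _ hx, hlab _ hx']
      exact (In.step hN (hPq _) (In.step hN (hPq _) (hlabIn x hx) k) l).mem.2
  · intro x hx0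
    have hx : pt x ∉ Nr C (2 * δ) := fun h => hx0 (hlab0 x h)
    have g5 := hlabIn x hx
    have f5 := hfar x hx
    have hFp := per_Fr hC δ
    have hPQ := hPq (s (pt x))
    rw [hlab x hx]
    refine ⟨hcop _ g5.mem.1, ?_⟩
    intro k l i j hij
    have g2 := In.step hN hPQ (In.step hN hPQ g5 k) l
    have f2 := In.step hN hFp (In.step hN hFp f5 k) l
    have g3 := fun i => In.step hN hPQ g2 i
    have f3 := fun i => In.step hN hFp f2 i
    obtain ⟨-, -, hg3⟩ := hgood x f5.mem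
    rw [habs] at hg3
    set q := s (pt x) with hq
    set y := x + E4 N k + E4 N l with hy
    have hfl : dd (bb (fun z => g (pt z)) (AG q)) i j y =
        (if i = 2 ∧ j = 3 then q.1 * h ^ 2 else 0) - (if i = 0 ∧ j = 1 then q.2 * h ^ 2 else 0) := by
      apply flat
      · have n1 := abs_nonneg (q.1 : ℝ)
        have n2 := abs_nonneg (q.2 : ℝ)
        have b1 : |(q.1 : ℝ) * h ^ 2| < 1 / 16 := by
          rw [abs_mul, abs_of_nonneg (sq_nonneg h)]
          nlinarith
        have b2 : |(q.2 : ℝ) * h ^ 2| < 1 / 16 := by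
          rw [abs_mul, abs_of_nonneg (sq_nonneg h)]
          nlinarith
        rw [abs_lt] at b1 b2 ⊢
        split_ifs <;> constructor <;> linarith [b1.1, b1.2, b2.1, b2.2]
      · exact curvG hN q hij y
      · exact hS1 q _ _ _ (g3 i) (f3 i)
      · exact hS1 q _ _ _ g2 f2
      · exact hS1 q _ _ _ (g3 j) (f3 j)
      · exact hS1 q _ _ _ g2 f2
    have e1 : dd (fun j z => bb (fun z => g (pt z)) (AG q) j z - q.1 * β j z + q.2 * α j z) i j y =
        dd (bb (fun z => g (pt z)) (AG q)) i j y - q.1 * dd β i j y + q.2 * dd α i j y := by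
      unfold dd
      ring
    have h4 : ¬ (j = 0 ∧ i = 1) := by
      rintro ⟨rfl, rfl⟩
      exact absurd hij (by decide)
    have h5 : ¬ (j = 2 ∧ i = 3) := by
      rintro ⟨rfl, rfl⟩
      exact absurd hij (by decide)
    rw [e1, hfl]
    unfold FF
    rw [if_neg h4, if_neg h5, ← hκe]
    split_ifs <;> ring

end Pool.Agent.Helper15.FQ4
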